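import Pool.Agent.Run7.h427.CY.Pow

/-!
# Commuting matrices with rational eigenvalues
-/

set_option autoImplicit false

namespace Run7.h427.CY

open Module Polynomial

variable {K : Type} [Field K]

/-- a common eigenvector of two commuting endomorphisms, the second one of finite order `p` -/
theorem exists_common [IsAlgClosed K] {V : Type} [AddCommGroup V] [Module K V]
    [FiniteDimensional K V] {A B : End K V} (hAB : A * B = B * A) {p : ℕ} (hp0 : (p : K) ≠ 0)
    (hBp : B ^ p = 1) (hB : B ≠ 1) :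
    ∃ (w : V) (a ζ : K), w ≠ 0 ∧ A w = a • w ∧ B w = ζ • w ∧ ζ ^ p = 1 ∧ ζ ≠ 1 := by
  classical
  have hgeom : (∑ i ∈ Finset.range p, B ^ i) * (B - 1) = 0 := by
    rw [geom_sum_mul, hBp, sub_self]
  have hC : B - 1 ≠ 0 := sub_ne_zero.mpr hB
  let W : Submodule K V := LinearMap.range (B - 1)
  have hW : W ≠ ⊥ := fun h => hC (LinearMap.range_eq_bot.mp h)
  have hBW : ∀ w ∈ W, B w ∈ W := by
    rintro _ ⟨x, rfl⟩
    refine ⟨B x, ?_⟩
    change (B - 1) (B x) = B ((B - 1) x)
    rw [LinearMap.sub_apply, LinearMap.sub_apply, map_sub]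
    rfl
  have hAW : ∀ w ∈ W, A w ∈ W := by
    rintro _ ⟨x, rfl⟩
    refine ⟨A x, ?_⟩
    change (B - 1) (A x) = A ((B - 1) x)
    rw [LinearMap.sub_apply, LinearMap.sub_apply, map_sub]
    have := LinearMap.congr_fun hAB x
    rw [Module.End.mul_apply, Module.End.mul_apply] at this
    rw [this]
    rfl
  have hWn : Nontrivial W := Submodule.nontrivial_iff_ne_bot.mpr hW
  obtain ⟨ζ, hζ⟩ := Module.End.exists_eigenvalue (B.restrict hBW)
  obtain ⟨w₀, hw₀⟩ := hζ.exists_hasEigenvector
  let E : Submodule K V := W ⊓ Module.End.eigenspace B ζ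
  have hw₀E : (w₀ : V) ∈ E := by
    refine ⟨w₀.2, ?_⟩
    rw [SetLike.mem_coe, Module.End.mem_eigenspace_iff]
    have h1 := hw₀.apply_eq_smul
    exact congrArg Subtype.val h1
  have hEn : Nontrivial E := by
    refine Submodule.nontrivial_iff_ne_bot.mpr fun h => ?_
    rw [h, Submodule.mem_bot] at hw₀E
    exact hw₀.2 (Subtype.ext hw₀E)
  have hAE : ∀ w ∈ E, A w ∈ E := by
    rintro w ⟨hw1, hw2⟩
    refine ⟨hAW w hw1, ?_⟩
    rw [SetLike.mem_coe, Module.End.mem_eigenspace_iff] at hw2 ⊢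
    have := LinearMap.congr_fun hAB w
    rw [Module.End.mul_apply, Module.End.mul_apply] at this
    rw [← this, hw2, map_smul]
  obtain ⟨a, ha⟩ := Module.End.exists_eigenvalue (A.restrict hAE)
  obtain ⟨w, hw⟩ := ha.exists_hasEigenvector
  have hw0 : (w : V) ≠ 0 := fun h => hw.2 (Subtype.ext h)
  have hBw : B (w : V) = ζ • (w : V) := Module.End.mem_eigenspace_iff.mp w.2.2
  have hBi : ∀ i : ℕ, (B ^ i) (w : V) = ζ ^ i • (w : V) := by
    intro i
    induction i with
    | zero => rw [pow_zero, pow_zero, one_smul]; rfl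
    | succ i ih => rw [pow_succ', Module.End.mul_apply, ih, map_smul, hBw, smul_smul, ← pow_succ]
  have hsum : (∑ i ∈ Finset.range p, ζ ^ i) = 0 := by
    obtain ⟨x, hx⟩ := w.2.1
    have h1 := LinearMap.congr_fun hgeom x
    rw [Module.End.mul_apply, hx, LinearMap.sum_apply] at h1
    simp only [hBi] at h1
    rw [← Finset.sum_smul, LinearMap.zero_apply] at h1
    exact (smul_eq_zero.mp h1).resolve_right hw0
  refine ⟨w, a, ζ, hw0, congrArg Subtype.val hw.apply_eq_smul, hBw, ?_, ?_⟩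
  · have h1 := geom_sum_mul ζ p
    rw [hsum, zero_mul] at h1
    exact (sub_eq_zero.mp h1.symm)
  · rintro rfl
    simp only [one_pow, Finset.sum_const, Finset.card_range, nsmul_eq_mul, mul_one] at hsum
    exact hp0 hsum

/-- eigenvalues are roots of the characteristic polynomial -/
theorem mem_roots_of_eigen {n : ℕ} {A : Matrix (Fin n) (Fin n) K} {w : Fin n → K} (hw : w ≠ 0)
    {a : K} (h : Matrix.toLin' A w = a • w) : a ∈ A.charpoly.roots := by
  rw [mem_roots A.charpoly_monic.ne_zero, ← Matrix.charpoly_toLin',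
    ← Module.End.hasEigenvalue_iff_isRoot_charpoly]
  exact Module.End.hasEigenvalue_of_hasEigenvector ⟨Module.End.mem_eigenspace_iff.mpr h, hw⟩

/-- **Rigidity for inertia.** If `A` and `B` commute, `B ^ p = 1` and `A` and `A B` have the same
rational eigenvalues, then `B = 1`. -/
theorem inert_trivial [IsAlgClosed K] {n : ℕ} {τ : K ≃+* K} {p : ℕ} (hp : Good τ n p)
    (hp0 : (p : K) ≠ 0) {A B : Matrix (Fin n) (Fin n) K} (hAB : A * B = B * A) (hBp : B ^ p = 1)
    (hA0 : A.det ≠ 0) {M : Multiset K} (hM : M.card ≤ n) (hτM : ∀ x ∈ M, τ x ∈ M)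
    (h1 : A.charpoly.roots = M) (h2 : (A * B).charpoly.roots = M) : B = 1 := by
  by_contra hB
  have hAB' : Matrix.toLin' A * Matrix.toLin' B = Matrix.toLin' B * Matrix.toLin' A := by
    have := congrArg Matrix.toLin' hAB
    rw [Matrix.toLin'_mul, Matrix.toLin'_mul] at this
    exact this
  have hBp' : Matrix.toLin' B ^ p = 1 := by
    rw [← Matrix.toLin'_pow, hBp, Matrix.toLin'_one]
    rfl
  have hB' : Matrix.toLin' B ≠ 1 := by
    intro h
    apply hB
    apply Matrix.toLin'.injective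
    rw [h, Matrix.toLin'_one]
    rfl
  obtain ⟨w, a, ζ, hw, hAw, hBw, hζp, hζ1⟩ := exists_common hAB' hp0 hBp' hB'
  have ha : a ∈ M := by
    rw [← h1]
    exact mem_roots_of_eigen hw hAw
  have hζa : ζ * a ∈ M := by
    rw [← h2]
    apply mem_roots_of_eigen hw
    rw [Matrix.toLin'_mul, LinearMap.comp_apply, hBw, map_smul, hAw, smul_smul]
  have ha0 : a ≠ 0 := by
    rintro rfl
    rw [zero_smul] at hAw
    apply hA0
    have h3 : (Matrix.toLin' A).det = 0 := by
      by_contra h4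
      have h5 := LinearMap.ker_eq_bot.mpr ((LinearMap.equivOfDetNeZero _ h4).injective)
      have h6 : w ∈ LinearMap.ker ((LinearMap.equivOfDetNeZero _ h4 : (Fin n → K) ≃ₗ[K] (Fin n → K)) : (Fin n → K) →ₗ[K] (Fin n → K)) := hAw
      rw [h5, Submodule.mem_bot] at h6
      exact hw h6
    rwa [LinearMap.det_toLin'] at h3
  have h3 := eq_of_pow_eq hp hM hM hτM hτM ha hζa (by rw [mul_pow, hζp, one_mul])
  apply hζ1
  have h4 : (ζ - 1) * a = 0 := by rw [sub_mul, one_mul, ← h3, sub_self]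
  exact sub_eq_zero.mp ((mul_eq_zero.mp h4).resolve_right ha0)

end Run7.h427.CY
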