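import Pool.Agent.Run7.h427.CY.Step
import Pool.Agent.Run7.h427.CY.Unr
import Pool.Agent.Run7.h427.PL.Arith
import Pool.Agent.W352.ChAbs.Main

/-!
# Descent of Galois representations through towers of cyclic extensions of good prime degrees
-/

set_option autoImplicit false

namespace Run7.h427.CY

open Matrix Topology Filter NumberField IsDedekindDomain Polynomial
open Pool.Agent.W401.Cheb Pool.Agent.W528.Ord
open Run7.h427.PL (exists_frob_dens vanish isFrob_conj)

variable {F : Type} [Field F] [NumberField F] {K : Type} [Field K] {n : ℕ}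

/-- `Q` is a prime of the ring of algebraic integers which lies above the prime `v` of `F`. -/
def Above (v : HeightOneSpectrum (𝓞 F)) (Q : Ideal (𝓞 (AlgebraicClosure F))) : Prop :=
  Q.IsMaximal ∧ Q.comap (algebraMap (𝓞 F) (𝓞 (AlgebraicClosure F))) = v.asIdeal

/-- `σ` acts on the residue field of `Q` as the `m`-th power of the Frobenius automorphism at `v`;
for `m = 0` this says that `σ` is in the inertia group at `Q`. -/
def FrobPow (v : HeightOneSpectrum (𝓞 F)) (Q : Ideal (𝓞 (AlgebraicClosure F))) (m : ℕ)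
    (σ : GK F) : Prop :=
  ∀ x : 𝓞 (AlgebraicClosure F), σ • x - x ^ (Ideal.absNorm v.asIdeal ^ m) ∈ Q

/-- The representation `ρ` of the subgroup `H` of the absolute Galois group of `F` is right at the
prime `v` of `F`: the eigenvalues of `ρ σ` are the `m`-th powers of the roots of `T v` if `σ` acts as
the `m`-th power of the Frobenius automorphism, `m > 0`, at a prime above `v`. -/
def Right (T : HeightOneSpectrum (𝓞 F) → K[X]) (H : Subgroup (GK F)) (ρ : H →* GL (Fin n) K)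
    (v : HeightOneSpectrum (𝓞 F)) : Prop :=
  ∀ Q, Above v Q → ∀ m : ℕ, 0 < m → ∀ (σ : GK F) (h : σ ∈ H), FrobPow v Q m σ →
    (ρ ⟨σ, h⟩ : Matrix (Fin n) (Fin n) K).charpoly.roots = (T v).roots.map fun a => a ^ m

/-- `ρ` is unramified at the prime `v` of `F`: it is trivial on the inertia groups above `v`. -/
def Unr (H : Subgroup (GK F)) (ρ : H →* GL (Fin n) K) (v : HeightOneSpectrum (𝓞 F)) : Prop :=
  ∀ Q, Above v Q → ∀ (σ : GK F) (h : σ ∈ H), FrobPow v Q 0 σ → ρ ⟨σ, h⟩ = 1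

/-- the inertia groups above `v` of `H'` are contained in `H` -/
def InertLe (H H' : Subgroup (GK F)) (v : HeightOneSpectrum (𝓞 F)) : Prop :=
  ∀ Q, Above v Q → ∀ σ ∈ H', FrobPow v Q 0 σ → σ ∈ H

section frobpow

variable {v : HeightOneSpectrum (𝓞 F)} {Q : Ideal (𝓞 (AlgebraicClosure F))}

theorem absNorm_pos (v : HeightOneSpectrum (𝓞 F)) (m : ℕ) : 0 < Ideal.absNorm v.asIdeal ^ m := by
  apply pow_pos
  rw [Nat.pos_iff_ne_zero, Ne, Ideal.absNorm_eq_zero_iff]
  exact v.ne_bot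

theorem FrobPow.smul_mem_iff (hQ : Above v Q) {m : ℕ} {σ : GK F} (h : FrobPow v Q m σ)
    (y : 𝓞 (AlgebraicClosure F)) : σ • y ∈ Q ↔ y ∈ Q := by
  have hp : Q.IsPrime := hQ.1.isPrime
  constructor
  · intro hy
    have h1 : y ^ (Ideal.absNorm v.asIdeal ^ m) ∈ Q := by
      have := Q.sub_mem hy (h y)
      rwa [sub_sub_cancel] at this
    exact hp.mem_of_pow_mem _ h1
  · intro hy
    have h1 : y ^ (Ideal.absNorm v.asIdeal ^ m) ∈ Q := Q.pow_mem_of_mem hy _ (absNorm_pos v m)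
    have := Q.add_mem (h y) h1
    rwa [sub_add_cancel] at this

theorem FrobPow.mul (hQ : Above v Q) {a b : ℕ} {σ τ : GK F} (hσ : FrobPow v Q a σ)
    (hτ : FrobPow v Q b τ) : FrobPow v Q (a + b) (σ * τ) := by
  intro x
  set N := Ideal.absNorm v.asIdeal with hN
  have h1 : (σ * τ) • x - x ^ (N ^ (a + b)) =
      σ • (τ • x - x ^ (N ^ b)) + ((σ • x) ^ (N ^ b) - (x ^ (N ^ a)) ^ (N ^ b)) := by
    rw [smul_sub, smul_pow', mul_smul, ← pow_mul, ← pow_add]
    ring
  rw [h1]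
  refine Q.add_mem ((hσ.smul_mem_iff hQ _).mpr (hτ x)) ?_
  exact Q.mem_of_dvd (sub_dvd_pow_sub_pow _ _ _) (hσ x)

theorem FrobPow.pow (hQ : Above v Q) {a : ℕ} {σ : GK F} (hσ : FrobPow v Q a σ) (m : ℕ) :
    FrobPow v Q (a * m) (σ ^ m) := by
  induction m with
  | zero =>
    intro x
    rw [mul_zero, pow_zero, pow_zero, one_smul, pow_one, sub_self]
    exact Q.zero_mem
  | succ m ih =>
    rw [pow_succ, mul_add, mul_one]
    exact ih.mul hQ hσ

theorem FrobPow.inv {σ : GK F} (hσ : FrobPow v Q 0 σ) : FrobPow v Q 0 σ⁻¹ := by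
  intro x
  have h1 := hσ (σ⁻¹ • x)
  rw [pow_zero, pow_one, smul_inv_smul] at h1
  rw [pow_zero, pow_one]
  have := Q.neg_mem h1
  rwa [neg_sub] at this

theorem FrobPow.conj (hQ : Above v Q) {m : ℕ} {s σ : GK F} (hs : FrobPow v Q m s)
    (hσ : FrobPow v Q 0 σ) : FrobPow v Q 0 (s * σ * s⁻¹) := by
  intro x
  have h1 := hσ (s⁻¹ • x)
  rw [pow_zero, pow_one] at h1
  have h2 := (hs.smul_mem_iff hQ _).mpr h1
  rw [smul_sub, smul_inv_smul, ← mul_smul, ← mul_smul] at h2
  rw [pow_zero, pow_one, mul_assoc]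
  exact h2

theorem isFrob_above {σ : GK F} (h : IsFrob v σ) : ∃ Q, Above v Q ∧ FrobPow v Q 1 σ := by
  obtain ⟨Q, hQ, hQv, hσ⟩ := h
  exact ⟨Q, ⟨hQ, hQv⟩, fun x => by rw [pow_one]; exact hσ x⟩

theorem exists_frobPow (hQ : Above v Q) (H : Subgroup (GK F)) (hH : IsOpen (H : Set (GK F))) :
    ∃ m : ℕ, 0 < m ∧ ∃ s ∈ H, FrobPow v Q m s := by
  have := hQ.1
  obtain ⟨σ, hσ⟩ := Pool.Agent.W352.ChAbs.exists_frob v Q hQ.2
  have h1 : FrobPow v Q 1 σ := fun x => by rw [pow_one]; exact hσ x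
  have hfin : Finite (GK F ⧸ H) := Subgroup.quotient_finite_of_isOpen H hH
  have hidx : H.index ≠ 0 := Subgroup.index_ne_zero_of_finite
  obtain ⟨m, hm, -, hmem⟩ := Subgroup.exists_pow_mem_of_index_ne_zero hidx σ
  have h2 := h1.pow hQ m
  rw [one_mul] at h2
  exact ⟨m, hm, σ ^ m, hmem, h2⟩

end frobpow

/-- Frobenius elements in cosets of open subgroups -/
theorem exists_frob_coset (H : Subgroup (GK F)) (hH : IsOpen (H : Set (GK F))) (x : GK F)
    (B : HeightOneSpectrum (𝓞 F) → Prop) (hB : Tendsto (dens B) atTop (𝓝 0)) :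
    ∃ v, ¬ B v ∧ ∃ h ∈ H, IsFrob v (x * h) := by
  obtain ⟨U, hU⟩ := ProfiniteGrp.exist_openNormalSubgroup_sub_open_nhds_of_one hH (by
    exact H.one_mem)
  have hUn : (U.toSubgroup).Normal := U.isNormal'
  let C : Set (GK F) := {g | ∃ τ : GK F, ∃ u ∈ U.toSubgroup, g = τ * (x * u) * τ⁻¹}
  obtain ⟨v, hv, σ, ⟨τ, u, hu, rfl⟩, hσ⟩ := exists_frob_dens U.toSubgroup U.isOpen' C
    (by
      rintro _ ⟨τ, u, hu, rfl⟩ τ'
      exact ⟨τ' * τ, u, hu, by group⟩)
    (by
      rintro _ ⟨τ, u, hu, rfl⟩ u' hu'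
      refine ⟨τ, u * (τ⁻¹ * u' * τ), U.toSubgroup.mul_mem hu ?_, by group⟩
      have := hUn.conj_mem u' hu' τ⁻¹
      rwa [inv_inv] at this)
    ⟨x, 1, 1, U.toSubgroup.one_mem, by group⟩ B hB
  have h1 := isFrob_conj v _ τ⁻¹ hσ
  have h2 : τ⁻¹ * (τ * (x * u) * τ⁻¹) * τ⁻¹⁻¹ = x * u := by group
  rw [h2] at h1
  exact ⟨v, hv, u, hU hu, h1⟩

/-- continuity can be checked on an open subgroup -/
theorem continuous_of_open {G : Type} [Group G] [TopologicalSpace G] [IsTopologicalGroup G]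
    [TopologicalSpace K] [IsTopologicalRing K] {N : Subgroup G} (hN : IsOpen (N : Set G))
    {σ : N →* GL (Fin n) K} (hc : Continuous fun x => (σ x : Matrix (Fin n) (Fin n) K))
    {R : G →* GL (Fin n) K} (h : ∀ (x : G) (hx : x ∈ N), R x = σ ⟨x, hx⟩) :
    Continuous fun x => (R x : Matrix (Fin n) (Fin n) K) := by
  rw [continuous_iff_continuousAt]
  intro g
  have ho : IsOpenEmbedding (fun y : N => g * (y : G)) :=
    (Homeomorph.mulLeft g).isOpenEmbedding.comp hN.isOpenEmbedding_subtypeVal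
  have h1 : Continuous fun y : N => (R (g * (y : G)) : Matrix (Fin n) (Fin n) K) := by
    have h2 : (fun y : N => (R (g * (y : G)) : Matrix (Fin n) (Fin n) K)) = fun y : N =>
        (R g : Matrix (Fin n) (Fin n) K) * (σ y : Matrix (Fin n) (Fin n) K) := by
      funext y
      rw [map_mul, h y y.2, Units.val_mul]
    rw [h2]
    exact continuous_const.matrix_mul hc
  have h3 := ho.continuousAt_iff (f := fun y : N => g * (y : G))
    (g := fun x => (R x : Matrix (Fin n) (Fin n) K)) (x := (1 : N))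
  have h4 : g * ((1 : N) : G) = g := by rw [Subgroup.coe_one, mul_one]
  rw [h4] at h3
  exact h3.mp h1.continuousAt

section main

variable [IsAlgClosed K]

theorem charpoly_eq_of_roots {A : Matrix (Fin n) (Fin n) K} {P : K[X]} (hP : P.Monic)
    (h : A.charpoly.roots = P.roots) : A.charpoly = P := by
  rw [(IsAlgClosed.splits A.charpoly).eq_prod_roots_of_monic A.charpoly_monic,
    (IsAlgClosed.splits P).eq_prod_roots_of_monic hP, h]

omit [IsAlgClosed K] in
theorem stable_roots {τ : K ≃+* K} {P : K[X]} (h : P.map (τ : K →+* K) = P) (x : K)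
    (hx : x ∈ P.roots) : τ x ∈ P.roots := by
  rw [mem_roots'] at hx ⊢
  refine ⟨hx.1, ?_⟩
  have h1 := Polynomial.eval_map_apply (f := (τ : K →+* K)) (p := P) (x := x)
  rw [h, RingHom.coe_coe] at h1
  rw [IsRoot.def] at hx ⊢
  rw [h1, hx.2, map_zero]

variable [TopologicalSpace K] [IsTopologicalRing K] [T2Space K]

/-- **One cyclic step.** -/
theorem one_step (hn : 0 < n) {τ : K ≃+* K} (hτc : Continuous τ)
    {T : HeightOneSpectrum (𝓞 F) → K[X]} (hT1 : ∀ v, (T v).Monic)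
    (hTn : ∀ v, (T v).natDegree = n) (hTτ : ∀ v, (T v).map (τ : K →+* K) = T v)
    {H H' : Subgroup (GK F)} (hH : IsOpen (H : Set (GK F))) (hle : H ≤ H')
    (hnorm : (H.subgroupOf H').Normal) {p : ℕ} (hp : Good τ n p) (hidx : H.relIndex H' = p)
    {ρ : H →* GL (Fin n) K} (hc : Continuous fun x => (ρ x : Matrix (Fin n) (Fin n) K))
    (hsp : Spans ρ) (hB : Tendsto (dens fun v => ¬ Right T H ρ v) atTop (𝓝 0)) :
    ∃ R : H' →* GL (Fin n) K, Continuous (fun x => (R x : Matrix (Fin n) (Fin n) K)) ∧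
      (∀ (x : GK F) (hx : x ∈ H), R ⟨x, hle hx⟩ = ρ ⟨x, hx⟩) ∧ Spans R ∧
      (∀ v, Right T H ρ v → Right T H' R v) ∧
      (∀ v, Right T H ρ v → Unr H ρ v → ((p : K) ≠ 0 ∨ InertLe H H' v) → Unr H' R v) := by
  classical
  -- the subgroup of `H'`
  let N : Subgroup H' := H.subgroupOf H'
  have hNn : N.Normal := hnorm
  have hNidx : N.index = p := hidx
  let σ : N →* GL (Fin n) K := ρ.comp (Subgroup.subgroupOfEquivOfLe hle).toMonoidHom
  have hσsp : Spans σ := by
    have h1 : (Set.range fun g => (σ g : Matrix (Fin n) (Fin n) K)) =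
        Set.range fun g => (ρ g : Matrix (Fin n) (Fin n) K) := by
      ext A
      constructor
      · rintro ⟨⟨⟨x, hx⟩, hxN⟩, rfl⟩
        exact ⟨⟨x, hxN⟩, rfl⟩
      · rintro ⟨⟨x, hx⟩, rfl⟩
        exact ⟨⟨⟨x, hle hx⟩, hx⟩, rfl⟩
    unfold Spans
    rw [h1]
    exact hsp
  have hfact : Fact p.Prime := ⟨hp.1⟩
  have hpow : ∀ y : H', y ^ p ∈ N := by
    intro y
    have h1 : (QuotientGroup.mk y : H' ⧸ N) ^ p = 1 := by
      have h2 : Nat.card (H' ⧸ N) = p := hNidx
      rw [← h2]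
      exact pow_card_eq_one'
    rw [← QuotientGroup.mk_pow, QuotientGroup.eq_one_iff] at h1
    exact h1
  -- a Frobenius element outside `H`
  obtain ⟨x₀, hx₀, hx₀H⟩ : ∃ x ∈ H', x ∉ H := by
    by_contra hcon
    push Not at hcon
    have h1 : H.relIndex H' = 1 := Subgroup.relIndex_eq_one.mpr fun x hx => hcon x hx
    rw [h1] at hidx
    exact hp.1.one_lt.ne hidx
  obtain ⟨v₀, hv₀, h₀, hh₀, hfr₀⟩ := exists_frob_coset H hH x₀ _ hB
  rw [not_not] at hv₀
  let g₀ : GK F := x₀ * h₀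
  have hg₀ : g₀ ∈ H' := H'.mul_mem hx₀ (hle hh₀)
  have hg₀H : g₀ ∉ H := fun h => hx₀H ((H.mul_mem_cancel_right hh₀).mp h)
  let g : H' := ⟨g₀, hg₀⟩
  have hgN : g ∉ N := hg₀H
  have hgpN : g ^ p ∈ N := hpow g
  have hgp : g₀ ^ p ∈ H := hgpN
  -- traces
  have key : ∀ v, Right T H ρ v → ∀ (x : GK F) (hx : x ∈ H), IsFrob v x →
      (ρ ⟨x, hx⟩ : Matrix (Fin n) (Fin n) K).charpoly = T v := by
    intro v hv x hx hfr
    apply charpoly_eq_of_roots (hT1 v)
    obtain ⟨Q, hQ, hfQ⟩ := isFrob_above hfr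
    have h1 := hv Q hQ 1 one_pos x hx hfQ
    simp only [pow_one, Multiset.map_id'] at h1
    exact h1
  have htr : ∀ (A : Matrix (Fin n) (Fin n) K), A.trace = -A.charpoly.coeff (n - 1) := by
    intro A
    have : Nonempty (Fin n) := ⟨⟨0, hn⟩⟩
    rw [Matrix.trace_eq_neg_charpoly_coeff, Fintype.card_fin]
  have ht : ∀ (x : H') (hx : x ∈ N), (σ ⟨g * x * g⁻¹, hNn.conj_mem x hx g⟩ :
      Matrix (Fin n) (Fin n) K).trace = (σ ⟨x, hx⟩ : Matrix (Fin n) (Fin n) K).trace := by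
    have hconj : ∀ y : H, g₀ * y * g₀⁻¹ ∈ H := by
      rintro ⟨y, hy⟩
      exact hNn.conj_mem ⟨y, hle hy⟩ hy g
    let f : H → H := fun y => ⟨g₀ * y * g₀⁻¹, hconj y⟩
    have hf : Continuous f := Continuous.subtype_mk
      ((continuous_const.mul continuous_subtype_val).mul continuous_const) _
    have h1 := vanish H hH (fun y => (ρ (f y) : Matrix (Fin n) (Fin n) K).trace -
      (ρ y : Matrix (Fin n) (Fin n) K).trace)
      ((hc.comp hf).matrix_trace.sub hc.matrix_trace) _ hB (by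
        intro v hv x hx hfr
        rw [not_not] at hv
        rw [sub_eq_zero, htr, htr, key v hv x hx hfr]
        have h2 := key v hv (g₀ * x * g₀⁻¹) (hconj ⟨x, hx⟩) (isFrob_conj v x g₀ hfr)
        change -(ρ ⟨g₀ * x * g₀⁻¹, hconj ⟨x, hx⟩⟩ : Matrix (Fin n) (Fin n) K).charpoly.coeff _ = _
        rw [h2])
    rintro ⟨x, hx'⟩ hx
    exact sub_eq_zero.mp (h1 ⟨x, hx⟩)
  have hτtr : ∀ x : N, τ (σ x : Matrix (Fin n) (Fin n) K).trace =
      (σ x : Matrix (Fin n) (Fin n) K).trace := by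
    have h1 := vanish H hH (fun y => τ (ρ y : Matrix (Fin n) (Fin n) K).trace -
      (ρ y : Matrix (Fin n) (Fin n) K).trace)
      ((hτc.comp hc.matrix_trace).sub hc.matrix_trace) _ hB (by
        intro v hv x hx hfr
        rw [not_not] at hv
        rw [sub_eq_zero, htr, key v hv x hx hfr, map_neg]
        have h2 := congrArg (fun P : K[X] => P.coeff (n - 1)) (hTτ v)
        simp only [Polynomial.coeff_map] at h2
        rw [RingHom.coe_coe] at h2
        rw [h2])
    rintro ⟨⟨x, hx'⟩, hx⟩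
    exact sub_eq_zero.mp (h1 ⟨x, hx⟩)
  -- the determinant
  let d : K := (T v₀).roots.prod
  have hrτ : ∀ v, ((T v).roots.map τ) = (T v).roots := by
    intro v
    have h1 := Polynomial.Splits.roots_map (IsAlgClosed.splits (T v)) (τ : K →+* K)
    rw [hTτ] at h1
    exact h1.symm
  have hdτ : τ d = d := by
    change τ (T v₀).roots.prod = (T v₀).roots.prod
    rw [map_multiset_prod, hrτ]
  have hd : (σ ⟨g ^ p, hgpN⟩ : Matrix (Fin n) (Fin n) K).det = d ^ p := by
    obtain ⟨Q, hQ, hfQ⟩ := isFrob_above hfr₀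
    have h1 := hv₀ Q hQ (1 * p) (by rw [one_mul]; exact hp.1.pos) (g₀ ^ p) hgp (hfQ.pow hQ p)
    rw [one_mul] at h1
    have h2 : (σ ⟨g ^ p, hgpN⟩ : Matrix (Fin n) (Fin n) K) =
        (ρ ⟨g₀ ^ p, hgp⟩ : Matrix (Fin n) (Fin n) K) := rfl
    rw [h2, Matrix.det_eq_prod_roots_charpoly, h1, Multiset.prod_map_pow, Multiset.map_id']
  obtain ⟨R, hR, hRch, -⟩ := step hn hσsp hp hNidx hgN ht hτtr hgpN hd hdτ
  have hRH : ∀ (x : GK F) (hx : x ∈ H), R ⟨x, hle hx⟩ = ρ ⟨x, hx⟩ := fun x hx => hR ⟨x, hle hx⟩ hx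
  have hcard : ∀ P : K[X], P.roots.card = P.natDegree := fun P =>
    (IsAlgClosed.splits P).natDegree_eq_card_roots.symm
  have hstab : ∀ (v : HeightOneSpectrum (𝓞 F)) (m : ℕ), ∀ y ∈ (T v).roots.map (fun a => a ^ m),
      τ y ∈ (T v).roots.map (fun a => a ^ m) := by
    intro v m y hy
    obtain ⟨a, ha, rfl⟩ := Multiset.mem_map.mp hy
    exact Multiset.mem_map.mpr ⟨τ a, stable_roots (hTτ v) a ha, (map_pow τ a m).symm⟩
  have hcardm : ∀ (v : HeightOneSpectrum (𝓞 F)) (m : ℕ),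
      ((T v).roots.map fun a => a ^ m).card ≤ n := by
    intro v m
    rw [Multiset.card_map, hcard, hTn]
  have hright : ∀ v, Right T H ρ v → Right T H' R v := by
    intro v hv Q hQ m hm x hx hfr
    have hxp : x ^ p ∈ H := hpow ⟨x, hx⟩
    have h1 := hv Q hQ (m * p) (Nat.mul_pos hm hp.1.pos) (x ^ p) hxp (hfr.pow hQ p)
    have h2 : R ⟨x, hx⟩ ^ p = ρ ⟨x ^ p, hxp⟩ := by
      rw [← map_pow, ← hRH _ hxp]
      rfl
    have h3 := roots_pow (R ⟨x, hx⟩ : Matrix (Fin n) (Fin n) K) p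
    rw [← Units.val_pow_eq_pow_val, h2, h1] at h3
    refine rigid hp (n := n) ?_ (hcardm v m) (fun y hy => stable_roots (hRch _) y hy) (hstab v m) ?_
    · rw [hcard, Matrix.charpoly_natDegree_eq_dim, Fintype.card_fin]
    · rw [← h3, Multiset.map_map]
      apply Multiset.map_congr rfl
      intro a _
      rw [Function.comp_apply, pow_mul]
  refine ⟨R, ?_, hRH, ?_, hright, ?_⟩
  · have hNo : IsOpen (N : Set H') := hH.preimage continuous_subtype_val
    refine continuous_of_open hNo (σ := σ) ?_ hR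
    have h1 : Continuous fun y : N => (⟨y.1.1, y.2⟩ : H) :=
      Continuous.subtype_mk (continuous_subtype_val.comp continuous_subtype_val) _
    exact hc.comp h1
  · unfold Spans
    rw [eq_top_iff]
    have h1 : Submodule.span K (Set.range fun g => (ρ g : Matrix (Fin n) (Fin n) K)) = ⊤ := hsp
    rw [← h1]
    apply Submodule.span_mono
    rintro _ ⟨⟨x, hx⟩, rfl⟩
    exact ⟨⟨x, hle hx⟩, congrArg Units.val (hRH x hx)⟩
  · intro v hv hu hor Q hQ i hi hfi
    by_cases hiH : i ∈ H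
    · rw [hRH i hiH]
      exact hu Q hQ i hiH hfi
    · have hp0 : (p : K) ≠ 0 := hor.resolve_right fun h => hiH (h Q hQ i hi hfi)
      obtain ⟨m, hm, s, hs, hfs⟩ := exists_frobPow hQ H hH
      -- the commutator is in `H` and in the inertia group
      have hcomm : s * i * s⁻¹ * i⁻¹ ∈ H := by
        have h1 : i * s⁻¹ * i⁻¹ ∈ H := hNn.conj_mem (⟨s, hle hs⟩⁻¹ : H') (H.inv_mem hs) ⟨i, hi⟩
        have h2 := H.mul_mem hs h1
        have h3 : s * i * s⁻¹ * i⁻¹ = s * (i * s⁻¹ * i⁻¹) := by group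
        rw [h3]
        exact h2
      have hfc : FrobPow v Q 0 (s * i * s⁻¹ * i⁻¹) := (hfs.conj hQ hfi).mul hQ hfi.inv
      have h1 := hu Q hQ _ hcomm hfc
      rw [← hRH _ hcomm] at h1
      let s' : H' := ⟨s, hle hs⟩
      let i' : H' := ⟨i, hi⟩
      have h2 : R s' * R i' = R i' * R s' := by
        have h3 : (⟨s * i * s⁻¹ * i⁻¹, hle hcomm⟩ : H') = s' * i' * s'⁻¹ * i'⁻¹ := rfl
        rw [h3, map_mul, map_mul, map_mul, map_inv, map_inv, mul_inv_eq_one,
          mul_inv_eq_iff_eq_mul] at h1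
        exact h1
      have hip : i ^ p ∈ H := hpow i'
      have h3 : R i' ^ p = 1 := by
        have h4 := hu Q hQ _ hip (by
          have := hfi.pow hQ p
          rwa [zero_mul] at this)
        rw [← hRH _ hip] at h4
        rw [← map_pow]
        exact h4
      have h5 := hright v hv Q hQ m hm s (hle hs) hfs
      have h6 := hright v hv Q hQ m hm (s * i) (H'.mul_mem (hle hs) hi) (by
        have := hfs.mul hQ hfi
        rwa [add_zero] at this)
      have h7 : R ⟨s * i, H'.mul_mem (hle hs) hi⟩ = R s' * R i' := map_mul R s' i'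
      rw [h7, Units.val_mul] at h6
      have h8 := inert_trivial hp hp0 (A := (R s' : Matrix (Fin n) (Fin n) K))
        (B := (R i' : Matrix (Fin n) (Fin n) K)) (by
          have := congrArg Units.val h2
          rwa [Units.val_mul, Units.val_mul] at this) (by
          have := congrArg Units.val h3
          rwa [Units.val_pow_eq_pow_val] at this)
        ((Matrix.isUnit_iff_isUnit_det _).mp (R s').isUnit).ne_zero (hcardm v m) (hstab v m) h5 h6
      exact Units.ext h8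

/-- The subgroups of the towers of cyclic extensions of good prime degrees: `H` is the Galois group of
a field which can be reached from `F` by successive cyclic extensions of good prime degrees `p`; if
`p` is the characteristic, the extension has to be unramified at the primes in `V`. -/
inductive Tower (𝒯 : Set (K ≃+* K)) (n : ℕ) (V : Set (HeightOneSpectrum (𝓞 F))) :
    Subgroup (GK F) → Prop
  | top : Tower 𝒯 n V ⊤
  | step (H H' : Subgroup (GK F)) (p : ℕ) (τ : K ≃+* K) : τ ∈ 𝒯 → Good τ n p → Tower 𝒯 n V H' →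
      H ≤ H' → (H.subgroupOf H').Normal → H.relIndex H' = p →
      ((p : K) ≠ 0 ∨ ∀ v ∈ V, InertLe H H' v) → Tower 𝒯 n V H

/-- Existence of the extension through a tower -/
theorem descent_exists (hn : 0 < n) {𝒯 : Set (K ≃+* K)} (h𝒯c : ∀ τ ∈ 𝒯, Continuous τ)
    {T : HeightOneSpectrum (𝓞 F) → K[X]} (hT1 : ∀ v, (T v).Monic)
    (hTn : ∀ v, (T v).natDegree = n) (hTτ : ∀ τ ∈ 𝒯, ∀ v, (T v).map (τ : K →+* K) = T v)
    {V : Set (HeightOneSpectrum (𝓞 F))}
    {H : Subgroup (GK F)} (hT : Tower 𝒯 n V H) : ∀ (_ : IsOpen (H : Set (GK F)))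
    (ρ : H →* GL (Fin n) K) (_ : Continuous fun x => (ρ x : Matrix (Fin n) (Fin n) K))
    (_ : Spans ρ) (_ : Tendsto (dens fun v => ¬ Right T H ρ v) atTop (𝓝 0)),
    ∃ R : GK F →* GL (Fin n) K, Continuous (fun x => (R x : Matrix (Fin n) (Fin n) K)) ∧
      (∀ (x : GK F) (hx : x ∈ H), R x = ρ ⟨x, hx⟩) ∧
      (∀ v, Right T H ρ v → ∀ σ : GK F, IsFrob v σ →
        (R σ : Matrix (Fin n) (Fin n) K).charpoly = T v) ∧
      (∀ v ∈ V, Right T H ρ v → Unr H ρ v → ∀ Q, Above v Q → ∀ σ : GK F, FrobPow v Q 0 σ →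
        R σ = 1) := by
  induction hT with
  | top =>
    intro _ ρ hc _ _
    refine ⟨ρ.comp Subgroup.topEquiv.symm.toMonoidHom, ?_, fun x hx => rfl, ?_, ?_⟩
    · exact hc.comp (Continuous.subtype_mk continuous_id _)
    · intro v hv σ hσ
      apply charpoly_eq_of_roots (hT1 v)
      obtain ⟨Q, hQ, hfQ⟩ := isFrob_above hσ
      have h1 := hv Q hQ 1 one_pos σ (Subgroup.mem_top _) hfQ
      simp only [pow_one, Multiset.map_id'] at h1
      exact h1
    · intro v _ _ hu Q hQ σ hσ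
      exact hu Q hQ σ (Subgroup.mem_top _) hσ
  | step H H' p τ hτ hp _ hle hnorm hidx hor ih =>
    intro hH ρ hc hsp hB
    obtain ⟨R', hR'c, hR'H, hR'sp, hR'r, hR'u⟩ := one_step hn (h𝒯c τ hτ) hT1 hTn (hTτ τ hτ) hH hle
      hnorm hp hidx hc hsp hB
    have hH' : IsOpen (H' : Set (GK F)) := Subgroup.isOpen_mono hle hH
    have hB' : Tendsto (dens fun v => ¬ Right T H' R' v) atTop (𝓝 0) :=
      squeeze_zero (fun N => dens_nonneg _ N)
        (fun N => dens_mono (fun v hv h => hv (hR'r v h)) N) hB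
    obtain ⟨R, h1, h2, h3, h4⟩ := ih hH' R' hR'c hR'sp hB'
    exact ⟨R, h1, fun x hx => by rw [h2 x (hle hx), hR'H], fun v hv => h3 v (hR'r v hv),
      fun v hvV hv hu => h4 v hvV (hR'r v hv)
        (hR'u v hv hu (hor.imp id fun h => h v hvV))⟩

end main

/-- **Uniqueness.** An absolutely irreducible representation is determined up to isomorphism by its
characteristic polynomials of Frobenius outside density zero. -/
theorem conj_of_frob [TopologicalSpace K] [IsTopologicalRing K] [T2Space K] (hn : 0 < n)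
    {T : HeightOneSpectrum (𝓞 F) → K[X]} {R R' : GK F →* GL (Fin n) K}
    (hR : Continuous fun x => (R x : Matrix (Fin n) (Fin n) K))
    (hR' : Continuous fun x => (R' x : Matrix (Fin n) (Fin n) K)) (hsp : Spans R)
    {B B' : HeightOneSpectrum (𝓞 F) → Prop} (hB : Tendsto (dens B) atTop (𝓝 0))
    (hB' : Tendsto (dens B') atTop (𝓝 0))
    (h : ∀ v, ¬ B v → ∀ σ : GK F, IsFrob v σ → (R σ : Matrix (Fin n) (Fin n) K).charpoly = T v)
    (h' : ∀ v, ¬ B' v → ∀ σ : GK F, IsFrob v σ →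
      (R' σ : Matrix (Fin n) (Fin n) K).charpoly = T v) :
    ∃ A : GL (Fin n) K, ∀ x, R' x = A * R x * A⁻¹ := by
  have hor : Tendsto (dens fun v => B v ∨ B' v) atTop (𝓝 0) :=
    Run7.h427.PL.dens_zero_or hB hB'
  have htr : ∀ (A : Matrix (Fin n) (Fin n) K), A.trace = -A.charpoly.coeff (n - 1) := by
    intro A
    have : Nonempty (Fin n) := ⟨⟨0, hn⟩⟩
    rw [Matrix.trace_eq_neg_charpoly_coeff, Fintype.card_fin]
  have h1 := vanish (⊤ : Subgroup (GK F)) isOpen_univ
    (fun y => (R y : Matrix (Fin n) (Fin n) K).trace - (R' y : Matrix (Fin n) (Fin n) K).trace)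
    ((hR.comp continuous_subtype_val).matrix_trace.sub
      (hR'.comp continuous_subtype_val).matrix_trace) _ hor (by
        intro v hv x hx hfr
        rw [not_or] at hv
        rw [sub_eq_zero, htr, htr, h v hv.1 x hfr, h' v hv.2 x hfr])
  exact conj_of_trace R R' hsp fun g => sub_eq_zero.mp (h1 ⟨g, Subgroup.mem_top g⟩)

/-- extensions of one absolutely irreducible representation which are conjugate are equal -/
theorem eq_of_conj {G : Type} [Group G] {H : Subgroup G} {ρ : H →* GL (Fin n) K} (hsp : Spans ρ)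
    {R R' : G →* GL (Fin n) K} (h : ∀ (x : G) (hx : x ∈ H), R x = ρ ⟨x, hx⟩)
    (h' : ∀ (x : G) (hx : x ∈ H), R' x = ρ ⟨x, hx⟩) {A : GL (Fin n) K}
    (hA : ∀ x, R' x = A * R x * A⁻¹) : R' = R := by
  obtain ⟨c, hc⟩ := scalar_of_comm hsp (A : Matrix (Fin n) (Fin n) K) (by
    rintro ⟨x, hx⟩
    have h1 := hA x
    rw [h x hx, h' x hx, eq_mul_inv_iff_mul_eq] at h1
    have := congrArg Units.val h1
    rwa [Units.val_mul, Units.val_mul] at this)
  ext1 x
  rw [hA x, mul_inv_eq_iff_eq_mul]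
  apply Units.ext
  rw [Units.val_mul, Units.val_mul, hc]
  exact (Matrix.scalar_commute c (fun r => mul_comm _ _) _)

theorem spans_of_extends {G : Type} [Group G] {H : Subgroup G} {ρ : H →* GL (Fin n) K}
    (hsp : Spans ρ) {R : G →* GL (Fin n) K} (h : ∀ (x : G) (hx : x ∈ H), R x = ρ ⟨x, hx⟩) :
    Spans R := by
  unfold Spans
  rw [eq_top_iff]
  have h1 : Submodule.span K (Set.range fun g => (ρ g : Matrix (Fin n) (Fin n) K)) = ⊤ := hsp
  rw [← h1]
  apply Submodule.span_mono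
  rintro _ ⟨⟨x, hx⟩, rfl⟩
  exact ⟨x, congrArg Units.val (h x hx)⟩

/-- **Descent through a tower.** -/
theorem descent [IsAlgClosed K] [TopologicalSpace K] [IsTopologicalRing K] [T2Space K]
    (hn : 0 < n) {𝒯 : Set (K ≃+* K)} (h𝒯c : ∀ τ ∈ 𝒯, Continuous τ)
    {T : HeightOneSpectrum (𝓞 F) → K[X]} (hT1 : ∀ v, (T v).Monic)
    (hTn : ∀ v, (T v).natDegree = n) (hTτ : ∀ τ ∈ 𝒯, ∀ v, (T v).map (τ : K →+* K) = T v)
    {V : Set (HeightOneSpectrum (𝓞 F))} {H : Subgroup (GK F)} (hT : Tower 𝒯 n V H)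
    (hH : IsOpen (H : Set (GK F))) {ρ : H →* GL (Fin n) K}
    (hc : Continuous fun x => (ρ x : Matrix (Fin n) (Fin n) K)) (hsp : Spans ρ)
    (hB : Tendsto (dens fun v => ¬ Right T H ρ v) atTop (𝓝 0)) :
    ∃ R : GK F →* GL (Fin n) K, Continuous (fun x => (R x : Matrix (Fin n) (Fin n) K)) ∧
      (∀ (x : GK F) (hx : x ∈ H), R x = ρ ⟨x, hx⟩) ∧ Spans R ∧
      (∀ v, Right T H ρ v → ∀ σ : GK F, IsFrob v σ →
        (R σ : Matrix (Fin n) (Fin n) K).charpoly = T v) ∧
      (∀ v ∈ V, Right T H ρ v → Unr H ρ v → ∀ Q, Above v Q → ∀ σ : GK F, FrobPow v Q 0 σ →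
        R σ = 1) ∧
      (∀ γ : K ≃+* K, Continuous γ → (∀ v, (T v).map (γ : K →+* K) = T v) →
        (∀ x, mp n γ (ρ x) = ρ x) → ∀ x, mp n γ (R x) = R x) := by
  obtain ⟨R, h1, h2, h3, h4⟩ := descent_exists hn h𝒯c hT1 hTn hTτ hT hH ρ hc hsp hB
  have hsR := spans_of_extends hsp h2
  refine ⟨R, h1, h2, hsR, h3, h4, ?_⟩
  intro γ hγ hγT hγρ
  have hmc : Continuous fun x => (((mp n γ).comp R) x : Matrix (Fin n) (Fin n) K) := by
    have h5 : (fun x => (((mp n γ).comp R) x : Matrix (Fin n) (Fin n) K)) = fun x =>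
        (R x : Matrix (Fin n) (Fin n) K).map γ := by
      funext x
      rw [MonoidHom.comp_apply, mp_apply]
    rw [h5]
    exact h1.matrix_map hγ
  have hch : ∀ v, ¬ ¬ Right T H ρ v → ∀ σ : GK F, IsFrob v σ →
      (R σ : Matrix (Fin n) (Fin n) K).charpoly = T v := fun v hv => h3 v (not_not.mp hv)
  obtain ⟨A, hA⟩ := conj_of_frob (R' := (mp n γ).comp R) hn h1 hmc hsR hB hB hch (by
    intro v hv σ hσ
    rw [MonoidHom.comp_apply, charpoly_mp, hch v hv σ hσ, hγT])
  have h5 := eq_of_conj hsp h2 (R' := (mp n γ).comp R) (by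
    intro x hx
    rw [MonoidHom.comp_apply, h2 x hx, hγρ]) hA
  intro x
  have := DFunLike.congr_fun h5 x
  rwa [MonoidHom.comp_apply] at this

end Run7.h427.CY
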