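import Mathlib

/-!
# Eigenvalues of powers; multisets of eigenvalues are determined by those of a power if the roots of
unity have a large degree
-/

set_option autoImplicit false

namespace Run7.h427.CY

open Module Module.End Polynomial

variable {K : Type} [Field K]

theorem finrank_biSup {V : Type} [AddCommGroup V] [Module K V] [FiniteDimensional K V]
    {W : K → Submodule K V} (hW : iSupIndep W) (s : Finset K) :
    finrank K (⨆ μ ∈ s, W μ : Submodule K V) = ∑ μ ∈ s, finrank K (W μ) := by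
  classical
  induction s using Finset.induction_on with
  | empty => simp
  | insert a s ha ih =>
    have h1 : Disjoint (W a) (⨆ μ ∈ s, W μ) := hW.disjoint_biSup (y := (s : Set K)) (by simpa using ha)
    have h2 := Submodule.finrank_sup_add_finrank_inf_eq (W a) (⨆ μ ∈ s, W μ)
    rw [h1.eq_bot, finrank_bot, add_zero] at h2
    rw [Finset.sum_insert ha, ← ih, ← h2, Finset.iSup_insert]

theorem gen_le {V : Type} [AddCommGroup V] [Module K V] (f : End K V) (m : ℕ) (μ : K) :
    f.maxGenEigenspace μ ≤ (f ^ m).maxGenEigenspace (μ ^ m) := by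
  intro v hv
  rw [mem_maxGenEigenspace] at hv ⊢
  obtain ⟨N, hN⟩ := hv
  refine ⟨N, ?_⟩
  have hc : Commute f (μ • (1 : End K V)) := (Commute.one_right f).smul_right μ
  have h1 := hc.geom_sum₂_mul m
  have h2 : (μ • (1 : End K V)) ^ m = μ ^ m • (1 : End K V) := by rw [_root_.smul_pow, one_pow]
  rw [h2] at h1
  have h3 : Commute (∑ i ∈ Finset.range m, f ^ i * (μ • (1 : End K V)) ^ (m - 1 - i))
      (f - μ • (1 : End K V)) := by
    apply Commute.sum_left
    intro i _
    apply Commute.mul_left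
    · exact ((Commute.refl f).sub_right hc).pow_left i
    · exact ((hc.symm).sub_right (Commute.refl _)).pow_left _
  rw [← h1, h3.mul_pow, Module.End.mul_apply, hN, map_zero]

/-- the eigenvalues of a power -/
theorem roots_pow_end [IsAlgClosed K] {V : Type} [AddCommGroup V] [Module K V]
    [FiniteDimensional K V] (f : End K V) (m : ℕ) :
    (f ^ m).charpoly.roots = f.charpoly.roots.map fun a => a ^ m := by
  classical
  have hcard : ∀ g : End K V, g.charpoly.roots.card = finrank K V := by
    intro g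
    rw [← (IsAlgClosed.splits g.charpoly).natDegree_eq_card_roots, LinearMap.charpoly_natDegree]
  symm
  apply Multiset.eq_of_le_of_card_le
  · rw [Multiset.le_iff_count]
    intro ν
    rw [Multiset.count_map]
    have h1 : (f.charpoly.roots.filter fun a => ν = a ^ m).card =
        ∑ μ ∈ f.charpoly.roots.toFinset.filter (fun a => ν = a ^ m), f.charpoly.roots.count μ := by
      rw [← Multiset.toFinset_sum_count_eq (f.charpoly.roots.filter fun a => ν = a ^ m),
        Multiset.toFinset_filter]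
      refine Finset.sum_congr rfl fun μ hμ => ?_
      rw [Multiset.count_filter, if_pos (Finset.mem_filter.mp hμ).2]
    rw [h1]
    have h2 : ∀ μ ∈ f.charpoly.roots.toFinset.filter (fun a => ν = a ^ m),
        f.charpoly.roots.count μ = finrank K (f.maxGenEigenspace μ) := by
      intro μ _
      rw [Polynomial.count_roots, LinearMap.finrank_maxGenEigenspace_eq]
    rw [Finset.sum_congr rfl h2, ← finrank_biSup f.independent_maxGenEigenspace,
      Polynomial.count_roots, ← LinearMap.finrank_maxGenEigenspace_eq]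
    apply Submodule.finrank_mono
    refine iSup₂_le fun μ hμ => ?_
    have h3 := gen_le f m μ
    rw [← (Finset.mem_filter.mp hμ).2] at h3
    exact h3
  · rw [Multiset.card_map, hcard, hcard]

/-- the eigenvalues of a power of a matrix -/
theorem roots_pow [IsAlgClosed K] {n : ℕ} (A : Matrix (Fin n) (Fin n) K) (m : ℕ) :
    (A ^ m).charpoly.roots = A.charpoly.roots.map fun a => a ^ m := by
  have h1 := roots_pow_end (Matrix.toLin' A) m
  rw [Matrix.charpoly_toLin', ← Matrix.toLin'_pow, Matrix.charpoly_toLin'] at h1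
  exact h1

/-- The prime `p` is good for the automorphism `τ` of `K` and the number `n`: if `ζ` is a primitive
`p`-th root of unity in `K`, then `τ, τ ^ 2, …, τ ^ n` move `ζ`.  (There is no such `ζ` in
characteristic `p`.) -/
def Good (τ : K ≃+* K) (n p : ℕ) : Prop :=
  p.Prime ∧ ∀ ζ : K, IsPrimitiveRoot ζ p → ∀ i : ℕ, 1 ≤ i → i ≤ n → (τ ^ i) ζ ≠ ζ

theorem pow_fix {τ : K ≃+* K} {a : ℕ} {x : K} (h : (τ ^ a) x = x) (c : ℕ) : (τ ^ (a * c)) x = x := by
  induction c with
  | zero => rfl
  | succ c ih =>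
    rw [mul_add, mul_one, pow_add, RingAut.mul_apply, h, ih]

/-- an element of a stable finite set is fixed by a small power -/
theorem exists_fix (τ : K ≃+* K) {n : ℕ} (A : Multiset K) (hA : A.card ≤ n)
    (hτ : ∀ x ∈ A, τ x ∈ A) {x : K} (hx : x ∈ A) : ∃ a : ℕ, 1 ≤ a ∧ a ≤ n ∧ (τ ^ a) x = x := by
  classical
  have hmem : ∀ i : ℕ, (τ ^ i) x ∈ A := by
    intro i
    induction i with
    | zero => exact hx
    | succ i ih =>
      rw [pow_succ', RingAut.mul_apply]
      exact hτ _ ih
  obtain ⟨i, hi, j, hj, hij, h⟩ := Finset.exists_ne_map_eq_of_card_lt_of_maps_to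
    (s := Finset.range (n + 1)) (t := A.toFinset) (f := fun i => (τ ^ i) x) (by
      rw [Finset.card_range]
      have := Multiset.toFinset_card_le A
      omega) (fun i _ => by
      rw [Finset.mem_coe, Multiset.mem_toFinset]
      exact hmem i)
  have key : ∀ i j : ℕ, i < j → j < n + 1 → (τ ^ i) x = (τ ^ j) x →
      ∃ a : ℕ, 1 ≤ a ∧ a ≤ n ∧ (τ ^ a) x = x := by
    intro i j hij hj h
    refine ⟨j - i, by omega, by omega, ?_⟩
    have h1 : (τ ^ j) x = (τ ^ i) ((τ ^ (j - i)) x) := by
      rw [← RingAut.mul_apply, ← pow_add]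
      congr 2
      omega
    rw [h1] at h
    exact ((τ ^ i).injective h).symm
  rw [Finset.mem_range] at hi hj
  rcases lt_or_gt_of_ne hij with h1 | h1
  · exact key i j h1 hj h
  · exact key j i h1 hi h.symm

theorem Good.eq_one {τ : K ≃+* K} {n p : ℕ} (hp : Good τ n p) {ξ : K} (h1 : ξ ^ p = 1) {a : ℕ}
    (ha1 : 1 ≤ a) (han : a ≤ n) (h : (τ ^ a) ξ = ξ) : ξ = 1 := by
  by_contra hne
  have hfact : Fact p.Prime := ⟨hp.1⟩
  have hprim : IsPrimitiveRoot ξ p := by
    have h1 := orderOf_eq_prime h1 hne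
    rw [← h1]
    exact IsPrimitiveRoot.orderOf _
  exact hp.2 ξ hprim a ha1 han h

/-- a power of `τ` which fixes the `p`-th power of a nonzero element of a small orbit fixes the
element -/
theorem Good.fix_of_pow {τ : K ≃+* K} {n p : ℕ} (hp : Good τ n p) {x : K} {a : ℕ}
    (ha1 : 1 ≤ a) (han : a ≤ n) (ha : (τ ^ a) x = x) {d : ℕ} (h : (τ ^ d) (x ^ p) = x ^ p) :
    (τ ^ d) x = x := by
  by_cases hx0 : x = 0
  · rw [hx0, map_zero]
  have h1 : (τ ^ d) x / x = 1 := by
    refine hp.eq_one ?_ ha1 han ?_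
    · rw [div_pow, ← map_pow, h, div_self (pow_ne_zero p hx0)]
    · rw [map_div₀, ← RingAut.mul_apply, ← pow_add, add_comm, pow_add, RingAut.mul_apply, ha]
  exact (div_eq_one_iff_eq hx0).mp h1

/-- elements of small stable sets with the same `p`-th power are equal -/
theorem eq_of_pow_eq {τ : K ≃+* K} {n p : ℕ} (hp : Good τ n p) {A B : Multiset K}
    (hA : A.card ≤ n) (hB : B.card ≤ n) (hτA : ∀ x ∈ A, τ x ∈ A) (hτB : ∀ x ∈ B, τ x ∈ B)
    {x y : K} (hx : x ∈ A) (hy : y ∈ B) (h : x ^ p = y ^ p) : x = y := by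
  by_cases hy0 : y = 0
  · rw [hy0, zero_pow hp.1.ne_zero] at h
    rw [hy0]
    exact eq_zero_of_pow_eq_zero h
  obtain ⟨a, ha1, han, ha⟩ := exists_fix τ A hA hτA hx
  obtain ⟨b, hb1, hbn, hb⟩ := exists_fix τ B hB hτB hy
  have h2 : (τ ^ a) y = y := hp.fix_of_pow hb1 hbn hb (by rw [← h, map_pow, ha])
  have h3 : x / y = 1 := by
    refine hp.eq_one ?_ ha1 han ?_
    · rw [div_pow, h, div_self (pow_ne_zero p hy0)]
    · rw [map_div₀, ha, h2]
  exact (div_eq_one_iff_eq hy0).mp h3

/-- **Rigidity.** Small stable multisets with the same multiset of `p`-th powers are equal. -/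
theorem rigid {τ : K ≃+* K} {n p : ℕ} (hp : Good τ n p) {A B : Multiset K}
    (hA : A.card ≤ n) (hB : B.card ≤ n) (hτA : ∀ x ∈ A, τ x ∈ A) (hτB : ∀ x ∈ B, τ x ∈ B)
    (h : (A.map fun x => x ^ p) = B.map fun x => x ^ p) : A = B := by
  classical
  have hiA : Set.InjOn (fun x : K => x ^ p) {x | x ∈ A} := fun x hx y hy hxy =>
    eq_of_pow_eq hp hA hA hτA hτA hx hy hxy
  have hiB : Set.InjOn (fun x : K => x ^ p) {x | x ∈ B} := fun x hx y hy hxy =>
    eq_of_pow_eq hp hB hB hτB hτB hx hy hxy
  have hmem : ∀ x, x ∈ A ↔ x ∈ B := by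
    intro x
    constructor
    · intro hx
      have h1 : x ^ p ∈ B.map fun x => x ^ p := by
        rw [← h]
        exact Multiset.mem_map_of_mem _ hx
      obtain ⟨y, hy, hyx⟩ := Multiset.mem_map.mp h1
      rw [eq_of_pow_eq hp hA hB hτA hτB hx hy hyx.symm]
      exact hy
    · intro hx
      have h1 : x ^ p ∈ A.map fun x => x ^ p := by
        rw [h]
        exact Multiset.mem_map_of_mem _ hx
      obtain ⟨y, hy, hyx⟩ := Multiset.mem_map.mp h1
      rw [eq_of_pow_eq hp hB hA hτB hτA hx hy hyx.symm]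
      exact hy
  ext x
  by_cases hx : x ∈ A
  · rw [← Multiset.count_map_eq_count (fun x : K => x ^ p) A hiA x hx, h,
      Multiset.count_map_eq_count (fun x : K => x ^ p) B hiB x ((hmem x).mp hx)]
  · rw [Multiset.count_eq_zero_of_notMem hx,
      Multiset.count_eq_zero_of_notMem fun hx' => hx ((hmem x).mpr hx')]

/-- for a good prime `p` the only `p`-th root of unity which is an `n`-th root of unity is `1` -/
theorem Good.one_of_pow {τ : K ≃+* K} {n p : ℕ} (hp : Good τ n p) (hn : 0 < n) {ξ : K}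
    (h1 : ξ ^ p = 1) (h2 : ξ ^ n = 1) : ξ = 1 := by
  by_contra hne
  have hfact : Fact p.Prime := ⟨hp.1⟩
  have hprim : IsPrimitiveRoot ξ p := by
    have h1 := orderOf_eq_prime h1 hne
    rw [← h1]
    exact IsPrimitiveRoot.orderOf _
  have hdvd : p ∣ n := (hprim.pow_eq_one_iff_dvd n).mp h2
  have hle : p ≤ n := Nat.le_of_dvd hn hdvd
  -- the `p`-th roots of unity different from one are a stable set with `p - 1` elements
  let A : Multiset K := (Multiset.range p).map fun i => ξ ^ i
  have hA : A.card ≤ n := by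
    rw [Multiset.card_map, Multiset.card_range]
    exact hle
  have hτA : ∀ x ∈ A, τ x ∈ A := by
    intro x hx
    obtain ⟨i, -, rfl⟩ := Multiset.mem_map.mp hx
    have h3 : (τ (ξ ^ i)) ^ p = 1 := by
      rw [← map_pow, ← pow_mul, mul_comm, pow_mul, h1, one_pow, map_one]
    obtain ⟨j, hj, hj'⟩ := hprim.eq_pow_of_pow_eq_one h3
    exact Multiset.mem_map.mpr ⟨j, Multiset.mem_range.mpr hj, hj'⟩
  have hξ : ξ ∈ A := Multiset.mem_map.mpr ⟨1, Multiset.mem_range.mpr hp.1.one_lt, pow_one ξ⟩
  obtain ⟨a, ha1, han, ha⟩ := exists_fix τ A hA hτA hξ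
  exact hp.2 ξ hprim a ha1 han ha

end Run7.h427.CY
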