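import Pool.Agent.Run7.h427.CY.Lin
import Pool.Agent.Run7.h427.CY.Pow

/-!
# Extension of an absolutely irreducible representation through a cyclic quotient of prime order
-/

set_option autoImplicit false

namespace Run7.h427.CY

open Matrix Polynomial

variable {G : Type} [Group G] {K : Type} [Field K] {n : ℕ}

section hat

variable {N : Subgroup G} [hNn : N.Normal] (σ : N →* GL (Fin n) K)

/-- the pairs of an element `γ` and a matrix which intertwines `σ` and its conjugate by `γ` -/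
def Hat : Subgroup (G × GL (Fin n) K) where
  carrier := {y | ∀ (x : G) (hx : x ∈ N), σ ⟨y.1 * x * y.1⁻¹, hNn.conj_mem x hx y.1⟩ =
    y.2 * σ ⟨x, hx⟩ * y.2⁻¹}
  one_mem' := by
    intro x hx
    have h1 : (⟨(1 : G × GL (Fin n) K).1 * x * (1 : G × GL (Fin n) K).1⁻¹,
        hNn.conj_mem x hx _⟩ : N) = ⟨x, hx⟩ := Subtype.ext (by
      change (1 : G) * x * 1⁻¹ = x
      group)
    rw [h1]
    change _ = (1 : GL (Fin n) K) * σ ⟨x, hx⟩ * 1⁻¹
    group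
  mul_mem' := by
    intro a b ha hb x hx
    have h1 := ha (b.1 * x * b.1⁻¹) (hNn.conj_mem x hx b.1)
    rw [hb x hx] at h1
    have h2 : (⟨(a * b).1 * x * (a * b).1⁻¹, hNn.conj_mem x hx _⟩ : N) =
        ⟨a.1 * (b.1 * x * b.1⁻¹) * a.1⁻¹, hNn.conj_mem _ (hNn.conj_mem x hx b.1) a.1⟩ :=
      Subtype.ext (by
        change a.1 * b.1 * x * (a.1 * b.1)⁻¹ = _
        group)
    rw [h2, h1]
    change _ = a.2 * b.2 * σ ⟨x, hx⟩ * (a.2 * b.2)⁻¹
    group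
  inv_mem' := by
    intro a ha x hx
    have hx' : a.1⁻¹ * x * a.1⁻¹⁻¹ ∈ N := hNn.conj_mem x hx a.1⁻¹
    have h1 := ha (a.1⁻¹ * x * a.1⁻¹⁻¹) hx'
    have h2 : (⟨a.1 * (a.1⁻¹ * x * a.1⁻¹⁻¹) * a.1⁻¹, hNn.conj_mem _ hx' a.1⟩ : N) = ⟨x, hx⟩ :=
      Subtype.ext (by
        change a.1 * (a.1⁻¹ * x * a.1⁻¹⁻¹) * a.1⁻¹ = x
        group)
    rw [h2] at h1
    change σ ⟨a.1⁻¹ * x * a.1⁻¹⁻¹, hx'⟩ = a.2⁻¹ * σ ⟨x, hx⟩ * a.2⁻¹⁻¹
    rw [h1]
    group

variable {σ}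

theorem mem_hat {y : G × GL (Fin n) K} : y ∈ Hat σ ↔ ∀ (x : G) (hx : x ∈ N),
    σ ⟨y.1 * x * y.1⁻¹, hNn.conj_mem x hx y.1⟩ = y.2 * σ ⟨x, hx⟩ * y.2⁻¹ := Iff.rfl

theorem mem_hat_self {x : G} (hx : x ∈ N) : ((x, σ ⟨x, hx⟩) : G × GL (Fin n) K) ∈ Hat σ := by
  intro y hy
  rw [← map_inv, ← map_mul, ← map_mul]
  rfl

/-- uniqueness of the intertwining matrix up to a scalar -/
theorem hat_unique (hσ : Spans σ) {x : G} {A B : GL (Fin n) K}
    (hA : ((x, A) : G × GL (Fin n) K) ∈ Hat σ) (hB : ((x, B) : G × GL (Fin n) K) ∈ Hat σ) :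
    ∃ c : K, (A : Matrix (Fin n) (Fin n) K) = c • (B : Matrix (Fin n) (Fin n) K) := by
  have h1 : ((1, B⁻¹ * A) : G × GL (Fin n) K) ∈ Hat σ := by
    have h := (Hat σ).mul_mem ((Hat σ).inv_mem hB) hA
    have h2 : ((x, B)⁻¹ * (x, A) : G × GL (Fin n) K) = (1, B⁻¹ * A) := by
      rw [Prod.inv_mk, Prod.mk_mul_mk, inv_mul_cancel]
    rwa [h2] at h
  obtain ⟨c, hc⟩ := scalar_of_comm hσ ((B⁻¹ * A : GL (Fin n) K) : Matrix (Fin n) (Fin n) K) (by
    rintro ⟨y, hy⟩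
    have h2 := h1 y hy
    have h3 : (⟨(1 : G) * y * (1 : G)⁻¹, hNn.conj_mem y hy 1⟩ : N) = ⟨y, hy⟩ := Subtype.ext (by
      change (1 : G) * y * 1⁻¹ = y
      group)
    change σ ⟨1 * y * 1⁻¹, _⟩ = _ at h2
    rw [h3, eq_mul_inv_iff_mul_eq] at h2
    rw [← Units.val_mul, ← Units.val_mul, h2])
  refine ⟨c, ?_⟩
  have h4 : (A : Matrix (Fin n) (Fin n) K) = (B : Matrix (Fin n) (Fin n) K) *
      ((B⁻¹ * A : GL (Fin n) K) : Matrix (Fin n) (Fin n) K) := by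
    rw [← Units.val_mul, mul_inv_cancel_left]
  rw [h4, hc]
  ext i j
  simp [Matrix.scalar_apply, mul_comm]

/-- existence of intertwining matrices -/
theorem exists_hat (hσ : Spans σ) (γ : G)
    (ht : ∀ (x : G) (hx : x ∈ N), (σ ⟨γ * x * γ⁻¹, hNn.conj_mem x hx γ⟩ :
      Matrix (Fin n) (Fin n) K).trace = (σ ⟨x, hx⟩ : Matrix (Fin n) (Fin n) K).trace) :
    ∃ A : GL (Fin n) K, ((γ, A) : G × GL (Fin n) K) ∈ Hat σ := by
  let c : N →* N := (MulAut.conjNormal γ : MulAut N).toMonoidHom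
  have hcv : ∀ y : N, c y = ⟨γ * y * γ⁻¹, hNn.conj_mem y y.2 γ⟩ := by
    intro y
    apply Subtype.ext
    exact MulAut.conjNormal_apply γ y
  obtain ⟨A, hA⟩ := conj_of_trace σ (σ.comp c) hσ (by
    rintro ⟨x, hx⟩
    rw [MonoidHom.comp_apply, hcv]
    exact (ht x hx).symm)
  refine ⟨A, fun x hx => ?_⟩
  have h1 := hA ⟨x, hx⟩
  rw [MonoidHom.comp_apply, hcv] at h1
  exact h1

/-- **Extension** through a cyclic quotient of prime order. -/
theorem ext_cyclic {p : ℕ} (hp : p.Prime) (hidx : N.index = p) {g : G} (hg : g ∉ N)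
    (B : GL (Fin n) K) (hB : ((g, B) : G × GL (Fin n) K) ∈ Hat σ) (hgp : g ^ p ∈ N)
    (hBp : B ^ p = σ ⟨g ^ p, hgp⟩) :
    ∃ R : G →* GL (Fin n) K, (∀ (x : G) (hx : x ∈ N), R x = σ ⟨x, hx⟩) ∧ R g = B := by
  classical
  have hfact : Fact p.Prime := ⟨hp⟩
  have hcard : Nat.card (G ⧸ N) = p := hidx
  have hg1 : (QuotientGroup.mk g : G ⧸ N) ≠ 1 := by
    rw [Ne, QuotientGroup.eq_one_iff]
    exact hg
  have hord : orderOf (QuotientGroup.mk g : G ⧸ N) = p := by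
    apply orderOf_eq_prime _ hg1
    rw [← QuotientGroup.mk_pow, QuotientGroup.eq_one_iff]
    exact hgp
  have hex : ∀ x : G, ∃ i : ℤ, g ^ (-i) * x ∈ N := by
    intro x
    have h1 : (QuotientGroup.mk x : G ⧸ N) ∈ Subgroup.zpowers (QuotientGroup.mk g : G ⧸ N) :=
      mem_zpowers_of_prime_card hcard hg1
    obtain ⟨i, hi⟩ := Subgroup.mem_zpowers_iff.mp h1
    refine ⟨i, ?_⟩
    rw [← QuotientGroup.eq_one_iff, QuotientGroup.mk_mul, ← hi, QuotientGroup.mk_zpow, ← _root_.zpow_add,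
      neg_add_cancel, zpow_zero]
  choose i hi using hex
  -- the powers
  have hpow : ∀ (c : ℤ) (hc : g ^ ((p : ℤ) * c) ∈ N), σ ⟨g ^ ((p : ℤ) * c), hc⟩ = B ^ ((p : ℤ) * c) := by
    intro c hc
    have h1 : (⟨g ^ ((p : ℤ) * c), hc⟩ : N) = (⟨g ^ p, hgp⟩ : N) ^ c := by
      apply Subtype.ext
      change g ^ ((p : ℤ) * c) = ((⟨g ^ p, hgp⟩ : N) ^ c : N)
      rw [_root_.zpow_mul, zpow_natCast]
      rfl
    rw [h1, map_zpow, ← hBp, _root_.zpow_mul, zpow_natCast]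
  have hwell : ∀ (x : G) (a b : ℤ) (ha : g ^ (-a) * x ∈ N) (hb : g ^ (-b) * x ∈ N),
      B ^ a * σ ⟨g ^ (-a) * x, ha⟩ = B ^ b * σ ⟨g ^ (-b) * x, hb⟩ := by
    intro x a b ha hb
    have h1 : g ^ (a - b) ∈ N := by
      have h2 := N.mul_mem hb (N.inv_mem ha)
      have h3 : g ^ (-b) * x * (g ^ (-a) * x)⁻¹ = g ^ (a - b) := by
        rw [_root_.mul_inv_rev, _root_.zpow_neg g a, inv_inv, mul_assoc, mul_inv_cancel_left, ← _root_.zpow_add]
        congr 1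
        ring
      rwa [h3] at h2
    have h4 : ((p : ℕ) : ℤ) ∣ a - b := by
      rw [← hord, orderOf_dvd_iff_zpow_eq_one, ← QuotientGroup.mk_zpow, QuotientGroup.eq_one_iff]
      exact h1
    obtain ⟨c, hc⟩ := h4
    have h5 : g ^ ((p : ℤ) * c) ∈ N := by rw [← hc]; exact h1
    have h6 : (⟨g ^ (-b) * x, hb⟩ : N) = ⟨g ^ ((p : ℤ) * c), h5⟩ * ⟨g ^ (-a) * x, ha⟩ :=
      Subtype.ext (by
        change g ^ (-b) * x = g ^ ((p : ℤ) * c) * (g ^ (-a) * x)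
        rw [← mul_assoc, ← _root_.zpow_add, ← hc]
        congr 2
        ring)
    rw [h6, map_mul, hpow, ← mul_assoc, ← _root_.zpow_add, ← hc]
    congr 2
    ring
  have hconj : ∀ (j : ℤ) (x : G) (hx : x ∈ N),
      σ ⟨g ^ j * x * (g ^ j)⁻¹, hNn.conj_mem x hx _⟩ = B ^ j * σ ⟨x, hx⟩ * (B ^ j)⁻¹ := by
    intro j x hx
    have h1 := (Hat σ).zpow_mem hB j
    exact h1 x hx
  let R : G →* GL (Fin n) K :=
    { toFun := fun x => B ^ (i x) * σ ⟨g ^ (-(i x)) * x, hi x⟩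
      map_one' := by
        have h0 : g ^ (-(0 : ℤ)) * 1 ∈ N := by
          rw [neg_zero, zpow_zero, one_mul]
          exact N.one_mem
        rw [hwell 1 (i 1) 0 (hi 1) h0, zpow_zero, one_mul]
        have h1 : (⟨g ^ (-(0 : ℤ)) * 1, h0⟩ : N) = 1 := Subtype.ext (by
          change g ^ (-(0 : ℤ)) * 1 = 1
          rw [neg_zero, zpow_zero, one_mul])
        rw [h1, map_one]
      map_mul' := by
        intro x y
        have h0 : g ^ (-(i x + i y)) * (x * y) ∈ N := by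
          have h1 : g ^ (-(i x + i y)) * (x * y) =
              (g ^ (-(i y)) * (g ^ (-(i x)) * x) * (g ^ (-(i y)))⁻¹) * (g ^ (-(i y)) * y) := by
            rw [neg_add_rev, _root_.zpow_add]
            group
          rw [h1]
          exact N.mul_mem (hNn.conj_mem _ (hi x) _) (hi y)
        rw [hwell (x * y) (i (x * y)) (i x + i y) (hi (x * y)) h0]
        have h2 : (⟨g ^ (-(i x + i y)) * (x * y), h0⟩ : N) =
            ⟨g ^ (-(i y)) * (g ^ (-(i x)) * x) * (g ^ (-(i y)))⁻¹, hNn.conj_mem _ (hi x) _⟩ *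
              ⟨g ^ (-(i y)) * y, hi y⟩ := Subtype.ext (by
          change g ^ (-(i x + i y)) * (x * y) =
            (g ^ (-(i y)) * (g ^ (-(i x)) * x) * (g ^ (-(i y)))⁻¹) * (g ^ (-(i y)) * y)
          rw [neg_add_rev, _root_.zpow_add]
          group)
        rw [h2, map_mul, hconj _ _ (hi x)]
        rw [_root_.zpow_add, _root_.zpow_neg B]
        group }
  refine ⟨R, fun x hx => ?_, ?_⟩
  · have h0 : g ^ (-(0 : ℤ)) * x ∈ N := by
      rw [neg_zero, zpow_zero, one_mul]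
      exact hx
    change B ^ (i x) * σ ⟨g ^ (-(i x)) * x, hi x⟩ = σ ⟨x, hx⟩
    rw [hwell x (i x) 0 (hi x) h0, zpow_zero, one_mul]
    congr 1
    apply Subtype.ext
    change g ^ (-(0 : ℤ)) * x = x
    rw [neg_zero, zpow_zero, one_mul]
  · have h0 : g ^ (-(1 : ℤ)) * g ∈ N := by
      rw [_root_.zpow_neg, zpow_one, inv_mul_cancel]
      exact N.one_mem
    change B ^ (i g) * σ ⟨g ^ (-(i g)) * g, hi g⟩ = B
    rw [hwell g (i g) 1 (hi g) h0, zpow_one]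
    have h1 : (⟨g ^ (-(1 : ℤ)) * g, h0⟩ : N) = 1 := Subtype.ext (by
      change g ^ (-(1 : ℤ)) * g = 1
      rw [_root_.zpow_neg, zpow_one, inv_mul_cancel])
    rw [h1, map_one, mul_one]

end hat

end Run7.h427.CY
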