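import Pool.Agent.Run7.h427.CY.Solv

/-!
# Descent over finite fields
-/

set_option autoImplicit false

namespace Run7.h427.CY

open Matrix Topology Filter NumberField IsDedekindDomain Polynomial
open Pool.Agent.W401.Cheb Pool.Agent.W528.Ord

variable {F : Type} [Field F] [NumberField F] {k : Type} [Field k] {n : ℕ}

section rat

variable {K : Type} [Field K] [Algebra k K]

/-- extension of scalars -/
noncomputable def up (n : ℕ) (k K : Type) [Field k] [Field K] [Algebra k K] :
    GL (Fin n) k →* GL (Fin n) K :=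
  Matrix.GeneralLinearGroup.map (algebraMap k K)

theorem up_apply (A : GL (Fin n) k) : (up n k K A : Matrix (Fin n) (Fin n) K) =
    (A : Matrix (Fin n) (Fin n) k).map (algebraMap k K) := rfl

theorem up_injective : Function.Injective (up n k K) := by
  intro A B h
  apply Units.ext
  have h1 := congrArg Units.val h
  rw [up_apply, up_apply] at h1
  exact Matrix.map_injective (algebraMap k K).injective h1

theorem charpoly_up (A : GL (Fin n) k) : (up n k K A : Matrix (Fin n) (Fin n) K).charpoly =
    (A : Matrix (Fin n) (Fin n) k).charpoly.map (algebraMap k K) := by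
  rw [up_apply, Matrix.charpoly_map]

theorem spans_up {G : Type} [Group G] {ρ : G →* GL (Fin n) k} (h : Spans ρ) :
    Spans ((up n k K).comp ρ) := by
  classical
  have h1 : ∀ A : Matrix (Fin n) (Fin n) k, A.map (algebraMap k K) ∈
      Submodule.span K (Set.range fun g => (((up n k K).comp ρ) g : Matrix (Fin n) (Fin n) K)) := by
    intro A
    have hA : A ∈ Submodule.span k (Set.range fun g => (ρ g : Matrix (Fin n) (Fin n) k)) := by
      have h' : Submodule.span k (Set.range fun g => (ρ g : Matrix (Fin n) (Fin n) k)) = ⊤ := h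
      rw [h']
      exact Submodule.mem_top
    induction hA using Submodule.span_induction with
    | mem x hx =>
      obtain ⟨g, rfl⟩ := hx
      exact Submodule.subset_span ⟨g, rfl⟩
    | zero =>
      rw [Matrix.map_zero _ (map_zero _)]
      exact Submodule.zero_mem _
    | add x y _ _ hx hy =>
      rw [Matrix.map_add _ (map_add _)]
      exact Submodule.add_mem _ hx hy
    | smul c x _ hx =>
      have h2 : (c • x).map (algebraMap k K) = algebraMap k K c • x.map (algebraMap k K) := by
        ext i j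
        simp
      rw [h2]
      exact Submodule.smul_mem _ _ hx
  unfold Spans
  rw [eq_top_iff]
  intro A _
  rw [Matrix.matrix_eq_sum_single A]
  refine Submodule.sum_mem _ fun i _ => Submodule.sum_mem _ fun j _ => ?_
  have h2 : Matrix.single i j (A i j) = A i j • (Matrix.single i j (1 : k)).map (algebraMap k K) := by
    rw [Matrix.map_single, map_one, Matrix.smul_single, smul_eq_mul, mul_one]
  rw [h2]
  exact Submodule.smul_mem _ _ (h1 _)

/-- a representation whose matrices have entries in the subfield comes from a representation over the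
subfield -/
theorem exists_down {G : Type} [Group G] (R : G →* GL (Fin n) K)
    (h : ∀ g i j, (R g : Matrix (Fin n) (Fin n) K) i j ∈ Set.range (algebraMap k K)) :
    ∃ r : G →* GL (Fin n) k, R = (up n k K).comp r := by
  classical
  have h1 : ∀ g, R g ∈ (up n k K).range := by
    intro g
    choose a ha using h g
    let A : Matrix (Fin n) (Fin n) k := Matrix.of a
    have hA : A.map (algebraMap k K) = (R g : Matrix (Fin n) (Fin n) K) := by
      ext i j
      exact ha i j
    have hdet : A.det ≠ 0 := by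
      intro h0
      have h2 := RingHom.map_det (algebraMap k K) A
      rw [h0, map_zero, RingHom.mapMatrix_apply, hA] at h2
      exact ((Matrix.isUnit_iff_isUnit_det _).mp (R g).isUnit).ne_zero h2.symm
    refine ⟨Matrix.GeneralLinearGroup.mkOfDetNeZero A hdet, ?_⟩
    apply Units.ext
    rw [up_apply]
    exact hA
  let e := MonoidHom.ofInjective (f := up n k K) up_injective
  refine ⟨e.symm.toMonoidHom.comp (R.codRestrict _ h1), ?_⟩
  ext1 g
  have h2 : e (e.symm ⟨R g, h1 g⟩) = ⟨R g, h1 g⟩ := MulEquiv.apply_symm_apply _ _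
  have h3 := congrArg Subtype.val h2
  exact h3.symm

end rat

/-- elements which act in the same way on the residue field differ by inertia -/
theorem FrobPow.div {v : HeightOneSpectrum (𝓞 F)} {Q : Ideal (𝓞 (AlgebraicClosure F))}
    (hQ : Above v Q) {m : ℕ} {s σ : GK F} (hs : FrobPow v Q m s) (hσ : FrobPow v Q m σ) :
    FrobPow v Q 0 (s⁻¹ * σ) := by
  intro x
  rw [pow_zero, pow_one, ← hs.smul_mem_iff hQ, smul_sub, ← mul_smul, mul_inv_cancel_left]
  have h1 := Q.sub_mem (hσ x) (hs x)
  rwa [sub_sub_sub_cancel_right] at h1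

/-- the restriction of an unramified representation: powers of the Frobenius automorphism -/
theorem aroots_of_attached (K : Type) [Field K] [Algebra k K] [IsAlgClosed K]
    {R : GK F →* GL (Fin n) k} {v : HeightOneSpectrum (𝓞 F)} {P : k[X]}
    (hun : ∀ Q, Above v Q → ∀ σ : GK F, FrobPow v Q 0 σ → R σ = 1)
    (hfr : ∀ σ : GK F, IsFrob v σ → (R σ : Matrix (Fin n) (Fin n) k).charpoly = P)
    {Q : Ideal (𝓞 (AlgebraicClosure F))} (hQ : Above v Q) {m : ℕ} {σ : GK F}
    (hσ : FrobPow v Q m σ) :
    (R σ : Matrix (Fin n) (Fin n) k).charpoly.aroots K = (P.aroots K).map fun a => a ^ m := by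
  have := hQ.1
  obtain ⟨s, hs⟩ := Pool.Agent.W352.ChAbs.exists_frob v Q hQ.2
  have h1 : FrobPow v Q 1 s := fun x => by rw [pow_one]; exact hs x
  have h2 := h1.pow hQ m
  rw [one_mul] at h2
  have h3 := hun Q hQ _ (h2.div hQ hσ)
  rw [map_mul, map_inv, map_pow, inv_mul_eq_one] at h3
  have h4 := hfr s ⟨Q, hQ.1, hQ.2, hs⟩
  have h5 := roots_pow (up n k K (R s) : Matrix (Fin n) (Fin n) K) m
  rw [← Units.val_pow_eq_pow_val, ← map_pow, h3, charpoly_up, charpoly_up, h4] at h5
  exact h5

/-- The prime `p` is good for the finite field `k`, with `q` elements, and for `n`: it is the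
characteristic of `k`, or it divides none of the numbers `q - 1, q ^ 2 - 1, …, q ^ n - 1`. -/
def GoodFin (k : Type) [Field k] (n p : ℕ) : Prop :=
  p.Prime ∧ (ringChar k = p ∨ ∀ i : ℕ, 1 ≤ i → i ≤ n → ¬ p ∣ Nat.card k ^ i - 1)

section fin

variable [Finite k]

/-- the Frobenius automorphism of the algebraic closure of a finite field -/
noncomputable def fr (k : Type) [Field k] [Finite k] : AlgebraicClosure k ≃+* AlgebraicClosure k :=
  haveI := Fintype.ofFinite k
  (FiniteField.frobeniusAlgEquivOfAlgebraic k (AlgebraicClosure k)).toRingEquiv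

theorem fr_apply (x : AlgebraicClosure k) : fr k x = x ^ Nat.card k := by
  have := Fintype.ofFinite k
  rw [Nat.card_eq_fintype_card]
  have h : fr k = (FiniteField.frobeniusAlgEquivOfAlgebraic k (AlgebraicClosure k)).toRingEquiv := by
    unfold fr
    congr
    exact Subsingleton.elim _ _
  rw [h]
  rfl

theorem fr_alg (x : k) : fr k (algebraMap k (AlgebraicClosure k) x) = algebraMap k _ x := by
  rw [fr_apply, ← map_pow]
  have := Fintype.ofFinite k
  rw [Nat.card_eq_fintype_card, FiniteField.pow_card]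

theorem fr_pow (x : AlgebraicClosure k) (m : ℕ) : (fr k ^ m) x = x ^ (Nat.card k ^ m) := by
  induction m with
  | zero => rw [pow_zero, pow_zero, pow_one]; rfl
  | succ m ih => rw [pow_succ', RingAut.mul_apply, ih, fr_apply, ← pow_mul, ← pow_succ]

theorem mem_of_fix {x : AlgebraicClosure k} (h : fr k x = x) :
    x ∈ Set.range (algebraMap k (AlgebraicClosure k)) := by
  classical
  have := Fintype.ofFinite k
  rw [fr_apply, Nat.card_eq_fintype_card] at h
  have h1 : ((X ^ Fintype.card k - X : k[X]).map (algebraMap k (AlgebraicClosure k))).Splits :=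
    IsAlgClosed.splits _
  have h2 : (X ^ Fintype.card k - X : k[X]).Splits := by
    rw [Polynomial.splits_iff_card_roots, FiniteField.roots_X_pow_card_sub_X,
      FiniteField.X_pow_card_sub_X_natDegree_eq k Fintype.one_lt_card]
    rfl
  have h3 := h2.roots_map (algebraMap k (AlgebraicClosure k))
  have h4 : x ∈ ((X ^ Fintype.card k - X : k[X]).map (algebraMap k (AlgebraicClosure k))).roots := by
    rw [mem_roots', IsRoot.def]
    refine ⟨?_, ?_⟩
    · rw [Ne, Polynomial.map_eq_zero]
      exact FiniteField.X_pow_card_sub_X_ne_zero k Fintype.one_lt_card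
    · rw [Polynomial.map_sub, Polynomial.map_pow, Polynomial.map_X, eval_sub, eval_pow, eval_X, h,
        sub_self]
  rw [h3] at h4
  obtain ⟨a, -, ha⟩ := Multiset.mem_map.mp h4
  exact ⟨a, ha⟩

theorem good_of_fin {p : ℕ} (h : GoodFin k n p) : Good (fr k) n p := by
  refine ⟨h.1, fun ζ hζ i hi1 hin hfix => ?_⟩
  rcases h.2 with h2 | h2
  · have hch : CharP k p := h2 ▸ ringChar.charP k
    have hchK : CharP (AlgebraicClosure k) p :=
      (Algebra.charP_iff k (AlgebraicClosure k) p).mp hch
    have hfact : Fact p.Prime := ⟨h.1⟩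
    have h3 : (ζ - 1) ^ p = 0 := by
      rw [sub_pow_char, one_pow, hζ.pow_eq_one, sub_self]
    have h4 : ζ = 1 := sub_eq_zero.mp (eq_zero_of_pow_eq_zero h3)
    exact hζ.ne_one h.1.one_lt h4
  · apply h2 i hi1 hin
    rw [fr_pow] at hfix
    have hζ0 : ζ ≠ 0 := hζ.ne_zero h.1.ne_zero
    have hq : 1 ≤ Nat.card k ^ i := Nat.one_le_pow _ _ Nat.card_pos
    have h3 : ζ ^ (Nat.card k ^ i - 1) = 1 := by
      have h4 : ζ ^ (Nat.card k ^ i - 1) * ζ = 1 * ζ := by
        rw [← pow_succ, Nat.sub_add_cancel hq, hfix, one_mul]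
      exact mul_right_cancel₀ hζ0 h4
    exact (hζ.pow_eq_one_iff_dvd _).mp h3

/-- **Descent over finite fields.** -/
theorem descent_fin [TopologicalSpace k] [DiscreteTopology k] (hn : 0 < n)
    {P : HeightOneSpectrum (𝓞 F) → k[X]} {V : Set (HeightOneSpectrum (𝓞 F))} (hV : Vᶜ.Finite)
    (hP1 : ∀ v ∈ V, (P v).Monic) (hPn : ∀ v ∈ V, (P v).natDegree = n)
    {H : Subgroup (GK F)} (hT : Tower {fr k} n V H) (hH : IsOpen (H : Set (GK F)))
    {ρ : H →* GL (Fin n) k}
    (hc : Continuous fun x => (ρ x : Matrix (Fin n) (Fin n) k)) (hsp : Spans ρ)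
    (hr : ∀ v ∈ V, ∀ Q, Above v Q → ∀ m : ℕ, 0 < m → ∀ (σ : GK F) (h : σ ∈ H), FrobPow v Q m σ →
      (ρ ⟨σ, h⟩ : Matrix (Fin n) (Fin n) k).charpoly.aroots (AlgebraicClosure k) =
        ((P v).aroots (AlgebraicClosure k)).map fun a => a ^ m)
    (hu : ∀ v ∈ V, Unr H ρ v) :
    ∃ R : GK F →* GL (Fin n) k, Continuous (fun x => (R x : Matrix (Fin n) (Fin n) k)) ∧
      (∀ (x : GK F) (hx : x ∈ H), R x = ρ ⟨x, hx⟩) ∧ Spans R ∧
      (∀ v ∈ V, (∀ Q, Above v Q → ∀ σ : GK F, FrobPow v Q 0 σ → R σ = 1) ∧
        ∀ σ : GK F, IsFrob v σ → (R σ : Matrix (Fin n) (Fin n) k).charpoly = P v) := by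
  classical
  let K := AlgebraicClosure k
  let _ : TopologicalSpace K := ⊥
  have _ : DiscreteTopology K := ⟨rfl⟩
  let T : HeightOneSpectrum (𝓞 F) → K[X] := fun v =>
    if v ∈ V then (P v).map (algebraMap k K) else X ^ n
  have hTV : ∀ v ∈ V, T v = (P v).map (algebraMap k K) := fun v hv => if_pos hv
  have hTV' : ∀ v, v ∉ V → T v = X ^ n := fun v hv => if_neg hv
  have hT1 : ∀ v, (T v).Monic := by
    intro v
    by_cases hv : v ∈ V
    · rw [hTV v hv]
      exact (hP1 v hv).map _
    · rw [hTV' v hv]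
      exact monic_X_pow n
  have hTn : ∀ v, (T v).natDegree = n := by
    intro v
    by_cases hv : v ∈ V
    · rw [hTV v hv, Polynomial.natDegree_map, hPn v hv]
    · rw [hTV' v hv, natDegree_X_pow]
  have hcomp : (fr k : K →+* K).comp (algebraMap k K) = algebraMap k K := by
    ext x
    exact fr_alg x
  have hTτ : ∀ τ ∈ ({fr k} : Set (K ≃+* K)), ∀ v, (T v).map (τ : K →+* K) = T v := by
    rintro τ hτ v
    rw [Set.mem_singleton_iff] at hτ
    subst hτ
    by_cases hv : v ∈ V
    · rw [hTV v hv, Polynomial.map_map, hcomp]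
    · rw [hTV' v hv, Polynomial.map_pow, map_X]
  let ρK : H →* GL (Fin n) K := (up n k K).comp ρ
  have hcK : Continuous fun x => (ρK x : Matrix (Fin n) (Fin n) K) :=
    hc.matrix_map (continuous_of_discreteTopology (f := algebraMap k K))
  have hRt : ∀ v ∈ V, Right T H ρK v := by
    intro v hv Q hQ m hm σ h hfr
    have h1 := hr v hv Q hQ m hm σ h hfr
    rw [Polynomial.aroots_def, Polynomial.aroots_def] at h1
    rw [hTV v hv, ← h1]
    change ((up n k K (ρ ⟨σ, h⟩) : GL (Fin n) K) : Matrix (Fin n) (Fin n) K).charpoly.roots = _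
    rw [charpoly_up]
  have hUn : ∀ v ∈ V, Unr H ρK v := by
    intro v hv Q hQ σ h hfr
    change up n k K (ρ ⟨σ, h⟩) = 1
    rw [hu v hv Q hQ σ h hfr, map_one]
  have hB : Tendsto (dens fun v => ¬ Right T H ρK v) atTop (𝓝 0) :=
    squeeze_zero (fun N => dens_nonneg _ N)
      (fun N => dens_mono (fun v hv hvV => hv (hRt v hvV)) N)
      (Run7.h427.DS.dens_finite Vᶜ hV)
  obtain ⟨RK, h1, h2, h3, h4, h5, h6⟩ := descent hn (𝒯 := {fr k})
    (fun _ _ => continuous_of_discreteTopology) hT1 hTn hTτ hT hH hcK (spans_up hsp) hB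
  have hfix := h6 (fr k) continuous_of_discreteTopology (hTτ _ rfl) (by
    intro x
    apply Units.ext
    rw [mp_apply]
    change ((ρ x : Matrix (Fin n) (Fin n) k).map (algebraMap k K)).map (fr k) =
      (ρ x : Matrix (Fin n) (Fin n) k).map (algebraMap k K)
    ext i j
    exact fr_alg _)
  obtain ⟨R, hR⟩ := exists_down RK (fun g i j => mem_of_fix (by
    have h7 := congrArg (fun A : GL (Fin n) K => (A : Matrix (Fin n) (Fin n) K) i j) (hfix g)
    exact h7))
  have hRg : ∀ g, RK g = up n k K (R g) := fun g => by rw [hR]; rfl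
  have hRH : ∀ (x : GK F) (hx : x ∈ H), R x = ρ ⟨x, hx⟩ := by
    intro x hx
    apply up_injective (K := K)
    rw [← hRg, h2 x hx]
    rfl
  refine ⟨R, continuous_of_open hH hc hRH, hRH, spans_of_extends hsp hRH, fun v hv => ⟨?_, ?_⟩⟩
  · intro Q hQ σ hσ
    apply up_injective (K := K)
    rw [← hRg, h5 v hv (hRt v hv) (hUn v hv) Q hQ σ hσ, map_one]
  · intro σ hσ
    have h7 := h4 v (hRt v hv) σ hσ
    rw [hRg, charpoly_up, hTV v hv] at h7
    exact Polynomial.map_injective _ (algebraMap k K).injective h7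

end fin

end Run7.h427.CY
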