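import Pool.Agent.Run7.h427.CD.Lift

/-!
# Absolutely irreducible matrix representations over an arbitrary field
-/

set_option autoImplicit false

namespace Run7.h427.CY

open Matrix

variable {G : Type} [Group G] {K : Type} [Field K] {n : ℕ}

/-- The matrices `ρ g` span the matrix algebra.  By Burnside's theorem this says that `ρ` is
absolutely irreducible. -/
def Spans (ρ : G →* GL (Fin n) K) : Prop :=
  Submodule.span K (Set.range fun g => (ρ g : Matrix (Fin n) (Fin n) K)) = ⊤

/-- a matrix which commutes with the matrices of an absolutely irreducible representation is scalar -/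
theorem scalar_of_comm {ρ : G →* GL (Fin n) K} (h : Spans ρ) (A : Matrix (Fin n) (Fin n) K)
    (hA : ∀ g, (ρ g : Matrix (Fin n) (Fin n) K) * A = A * (ρ g : Matrix (Fin n) (Fin n) K)) :
    ∃ c : K, A = Matrix.scalar (Fin n) c := by
  have h1 : ∀ B : Matrix (Fin n) (Fin n) K, B * A = A * B := by
    intro B
    have hB : B ∈ Submodule.span K (Set.range fun g => (ρ g : Matrix (Fin n) (Fin n) K)) := by
      have h' : Submodule.span K (Set.range fun g => (ρ g : Matrix (Fin n) (Fin n) K)) = ⊤ := h
      rw [h']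
      exact Submodule.mem_top
    induction hB using Submodule.span_induction with
    | mem x hx =>
      obtain ⟨g, rfl⟩ := hx
      exact hA g
    | zero => rw [zero_mul, mul_zero]
    | add x y _ _ hx hy => rw [add_mul, mul_add, hx, hy]
    | smul c x _ hx => rw [smul_mul_assoc, mul_smul_comm, hx]
  have h2 : A ∈ Set.range (Matrix.scalar (Fin n)) :=
    Matrix.mem_range_scalar_iff_commute_single'.mpr fun i j => h1 _
  obtain ⟨c, hc⟩ := h2
  exact ⟨c, hc.symm⟩

/-- **Absolutely irreducible representations are determined by their traces**, over any field. -/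
theorem conj_of_trace (ρ ρ' : G →* GL (Fin n) K) (h : Spans ρ)
    (ht : ∀ g, (ρ g : Matrix (Fin n) (Fin n) K).trace = (ρ' g : Matrix (Fin n) (Fin n) K).trace) :
    ∃ A : GL (Fin n) K, ∀ g, ρ' g = A * ρ g * A⁻¹ := by
  classical
  let π : MonoidAlgebra K G →ₐ[K] Matrix (Fin n) (Fin n) K :=
    MonoidAlgebra.lift K (Matrix (Fin n) (Fin n) K) G ((Units.coeHom _).comp ρ)
  let π' : MonoidAlgebra K G →ₐ[K] Matrix (Fin n) (Fin n) K :=
    MonoidAlgebra.lift K (Matrix (Fin n) (Fin n) K) G ((Units.coeHom _).comp ρ')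
  have hπ : ∀ g, π (MonoidAlgebra.of K G g) = (ρ g : Matrix (Fin n) (Fin n) K) := by
    intro g
    simp [π]
  have hπ' : ∀ g, π' (MonoidAlgebra.of K G g) = (ρ' g : Matrix (Fin n) (Fin n) K) := by
    intro g
    simp [π']
  have hsurj : Function.Surjective π := by
    intro B
    have hB : B ∈ Submodule.span K (Set.range fun g => (ρ g : Matrix (Fin n) (Fin n) K)) := by
      have h' : Submodule.span K (Set.range fun g => (ρ g : Matrix (Fin n) (Fin n) K)) = ⊤ := h
      rw [h']
      exact Submodule.mem_top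
    induction hB using Submodule.span_induction with
    | mem x hx =>
      obtain ⟨g, rfl⟩ := hx
      exact ⟨_, hπ g⟩
    | zero => exact ⟨0, map_zero _⟩
    | add x y _ _ hx hy =>
      obtain ⟨a, rfl⟩ := hx
      obtain ⟨b, rfl⟩ := hy
      exact ⟨a + b, map_add _ _ _⟩
    | smul c x _ hx =>
      obtain ⟨a, rfl⟩ := hx
      exact ⟨c • a, map_smul _ _ _⟩
  have htr : ∀ x, (π x).trace = (π' x).trace := by
    intro x
    induction x using MonoidAlgebra.induction_on with
    | of g => rw [hπ, hπ', ht]
    | add a b ha hb => rw [map_add, map_add, Matrix.trace_add, Matrix.trace_add, ha, hb]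
    | smul c a ha => rw [map_smul, map_smul, Matrix.trace_smul, Matrix.trace_smul, ha]
  have hk1 : ∀ x, π' x = 0 → π x = 0 := by
    intro x hx
    rw [Matrix.ext_iff_trace_mul_right]
    intro B
    obtain ⟨b, rfl⟩ := hsurj B
    rw [zero_mul, Matrix.trace_zero, ← map_mul, htr, map_mul, hx, zero_mul, Matrix.trace_zero]
  -- surjectivity of the second one
  choose s hs using hsurj
  let bas := Matrix.stdBasis K (Fin n) (Fin n)
  have hli : LinearIndependent K fun ij => π' (s (bas ij)) := by
    rw [Fintype.linearIndependent_iff]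
    intro c hc
    have h1 : π' (∑ ij, c ij • s (bas ij)) = 0 := by
      rw [map_sum]
      simp only [map_smul]
      exact hc
    have h2 := hk1 _ h1
    rw [map_sum] at h2
    simp only [map_smul, hs] at h2
    exact (Fintype.linearIndependent_iff.mp bas.linearIndependent) c h2
  have hspan := hli.span_eq_top_of_card_eq_finrank' (by
    rw [Module.finrank_eq_card_basis bas])
  have hsurj' : Function.Surjective π' := by
    intro B
    have hB : B ∈ Submodule.span K (Set.range fun ij => π' (s (bas ij))) := by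
      rw [hspan]
      exact Submodule.mem_top
    induction hB using Submodule.span_induction with
    | mem x hx =>
      obtain ⟨ij, rfl⟩ := hx
      exact ⟨_, rfl⟩
    | zero => exact ⟨0, map_zero _⟩
    | add x y _ _ hx hy =>
      obtain ⟨a, rfl⟩ := hx
      obtain ⟨b, rfl⟩ := hy
      exact ⟨a + b, map_add _ _ _⟩
    | smul c x _ hx =>
      obtain ⟨a, rfl⟩ := hx
      exact ⟨c • a, map_smul _ _ _⟩
  have hk2 : ∀ x, π x = 0 → π' x = 0 := by
    intro x hx
    rw [Matrix.ext_iff_trace_mul_right]
    intro B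
    obtain ⟨b, rfl⟩ := hsurj' B
    rw [zero_mul, Matrix.trace_zero, ← map_mul, ← htr, map_mul, hx, zero_mul, Matrix.trace_zero]
  have hker : RingHom.ker π = RingHom.ker π' := by
    ext x
    rw [RingHom.mem_ker, RingHom.mem_ker]
    exact ⟨hk2 x, hk1 x⟩
  have hsurjπ : Function.Surjective π := fun B => ⟨s B, hs B⟩
  let e : Matrix (Fin n) (Fin n) K ≃ₐ[K] Matrix (Fin n) (Fin n) K :=
    ((Ideal.quotientKerAlgEquivOfSurjective hsurjπ).symm.trans
      (Ideal.quotientEquivAlgOfEq K hker)).trans (Ideal.quotientKerAlgEquivOfSurjective hsurj')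
  have he : ∀ x, e (π x) = π' x := by
    intro x
    have h1 : (Ideal.quotientKerAlgEquivOfSurjective hsurjπ).symm (π x) =
        Ideal.Quotient.mk _ x := by
      rw [AlgEquiv.symm_apply_eq]
      rfl
    change (Ideal.quotientKerAlgEquivOfSurjective hsurj') ((Ideal.quotientEquivAlgOfEq K hker)
      ((Ideal.quotientKerAlgEquivOfSurjective hsurjπ).symm (π x))) = π' x
    rw [h1, Ideal.quotientEquivAlgOfEq_mk]
    rfl
  let f : Module.End K (Fin n → K) ≃ₐ[K] Module.End K (Fin n → K) :=
    (Matrix.toLinAlgEquiv'.symm.trans e).trans Matrix.toLinAlgEquiv'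
  obtain ⟨T, hT⟩ := AlgEquiv.eq_linearEquivConjAlgEquiv f
  let A : GL (Fin n) K := Matrix.GeneralLinearGroup.toLin.symm
    (LinearMap.GeneralLinearGroup.ofLinearEquiv T)
  have hA : Matrix.toLin' (A : Matrix (Fin n) (Fin n) K) = (T : (Fin n → K) →ₗ[K] (Fin n → K)) := by
    have h1 : Matrix.GeneralLinearGroup.toLin A = LinearMap.GeneralLinearGroup.ofLinearEquiv T :=
      MulEquiv.apply_symm_apply _ _
    have h2 := congrArg (fun u : LinearMap.GeneralLinearGroup K (Fin n → K) =>
      (u : Module.End K (Fin n → K))) h1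
    exact h2
  refine ⟨A, fun g => ?_⟩
  rw [eq_mul_inv_iff_mul_eq]
  apply Units.ext
  rw [Units.val_mul, Units.val_mul]
  apply Matrix.toLin'.injective
  rw [Matrix.toLin'_mul, Matrix.toLin'_mul, hA]
  have h3 : f (Matrix.toLin' (ρ g : Matrix (Fin n) (Fin n) K)) =
      Matrix.toLin' (ρ' g : Matrix (Fin n) (Fin n) K) := by
    change Matrix.toLinAlgEquiv' (e (Matrix.toLinAlgEquiv'.symm
      (Matrix.toLinAlgEquiv' (ρ g : Matrix (Fin n) (Fin n) K)))) = _
    rw [AlgEquiv.symm_apply_apply, ← hπ, he, hπ']
    rfl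
  rw [← h3, hT]
  apply LinearMap.ext
  intro v
  simp [LinearEquiv.conjAlgEquiv_apply]

end Run7.h427.CY
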