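import Pool.Agent.Run7.h427.CY.Fin

/-!
# Descent over extensions of `ℚ_ℓ`
-/

set_option autoImplicit false

namespace Run7.h427.CY

open Matrix Topology Filter NumberField IsDedekindDomain Polynomial
open Pool.Agent.W401.Cheb Pool.Agent.W528.Ord
open scoped IntermediateField

variable {ℓ : ℕ} [Fact ℓ.Prime]

/-- automorphisms of the algebraic closure of `ℚ_ℓ` are continuous -/
theorem continuous_aut (γ : PadicAlgCl ℓ ≃ₐ[ℚ_[ℓ]] PadicAlgCl ℓ) : Continuous γ := by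
  have h : ∀ x, ‖γ x‖ = ‖x‖ := fun x => (spectralNorm_eq_of_equiv γ x).symm
  exact (AddMonoidHomClass.isometry_of_norm γ h).continuous

theorem continuous_aut' (L : IntermediateField ℚ_[ℓ] (PadicAlgCl ℓ))
    (γ : PadicAlgCl ℓ ≃ₐ[L] PadicAlgCl ℓ) : Continuous γ :=
  continuous_aut (γ.restrictScalars ℚ_[ℓ])

/-- The prime `p` is good for the extension `L` of `ℚ_ℓ` and for `n`: the field generated over `L` by
the `p`-th roots of unity has degree larger than `n` over `L`. -/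
def GoodLoc (L : IntermediateField ℚ_[ℓ] (PadicAlgCl ℓ)) (n p : ℕ) : Prop :=
  p.Prime ∧ ∀ ζ : PadicAlgCl ℓ, IsPrimitiveRoot ζ p → n < Module.finrank L L⟮ζ⟯

theorem toRingEquiv_pow {L : IntermediateField ℚ_[ℓ] (PadicAlgCl ℓ)}
    (τ : PadicAlgCl ℓ ≃ₐ[L] PadicAlgCl ℓ) (i : ℕ) (x : PadicAlgCl ℓ) :
    (τ.toRingEquiv ^ i) x = (τ ^ i) x := by
  induction i with
  | zero => rfl
  | succ i ih =>
    rw [pow_succ', pow_succ', RingAut.mul_apply, ih]
    rfl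

theorem exists_good {L : IntermediateField ℚ_[ℓ] (PadicAlgCl ℓ)} {n p : ℕ} (h : GoodLoc L n p) :
    ∃ τ : PadicAlgCl ℓ ≃ₐ[L] PadicAlgCl ℓ, Good τ.toRingEquiv n p := by
  classical
  have hfact : Fact p.Prime := ⟨h.1⟩
  have hne : NeZero p := ⟨h.1.ne_zero⟩
  have hp0 : NeZero ((p : ℕ) : PadicAlgCl ℓ) := ⟨Nat.cast_ne_zero.mpr h.1.ne_zero⟩
  obtain ⟨ζ, hζ⟩ := HasEnoughRootsOfUnity.exists_primitiveRoot (PadicAlgCl ℓ) p
  let χ := hζ.autToPow L
  have hcyc : IsCyclic χ.range := inferInstance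
  obtain ⟨⟨_, ⟨τ, rfl⟩⟩, hτ⟩ := hcyc.exists_generator
  have hτ' : ∀ g : PadicAlgCl ℓ ≃ₐ[L] PadicAlgCl ℓ, ∃ j : ℤ, χ g = χ τ ^ j := by
    intro g
    obtain ⟨j, hj⟩ := Subgroup.mem_zpowers_iff.mp (hτ ⟨χ g, ⟨g, rfl⟩⟩)
    exact ⟨j, (congrArg Subtype.val hj).symm⟩
  have hχ : ∀ g g' : PadicAlgCl ℓ ≃ₐ[L] PadicAlgCl ℓ, χ g = χ g' → g ζ = g' ζ := by
    intro g g' hg
    rw [← hζ.autToPow_spec L g, ← hζ.autToPow_spec L g']
    change ζ ^ ((χ g : (ZMod p)ˣ) : ZMod p).val = ζ ^ ((χ g' : (ZMod p)ˣ) : ZMod p).val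
    rw [hg]
  refine ⟨τ, h.1, fun ζ' hζ' i hi hin hfix => ?_⟩
  rw [toRingEquiv_pow] at hfix
  -- `τ ^ i` fixes `ζ`
  have hfixζ : (τ ^ i) ζ = ζ := by
    obtain ⟨j, -, hj⟩ := hζ'.eq_pow_of_pow_eq_one hζ.pow_eq_one
    rw [← hj, map_pow, hfix]
  have hfixm : ∀ m : ℤ, (τ ^ ((i : ℤ) * m)) ζ = ζ := by
    intro m
    have h1 : τ ^ i ∈ MulAction.stabilizer (PadicAlgCl ℓ ≃ₐ[L] PadicAlgCl ℓ) ζ := hfixζ
    have h2 := Subgroup.zpow_mem _ h1 m
    rw [← zpow_natCast, ← _root_.zpow_mul] at h2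
    exact h2
  have hint : IsIntegral L ζ := hζ.isIntegral h.1.pos |>.tower_top
  have hfr := IntermediateField.adjoin.finrank hint
  have hlt := h.2 ζ hζ
  rw [hfr] at hlt
  have hsplit : ((minpoly L ζ).map (algebraMap L (PadicAlgCl ℓ))).Splits := IsAlgClosed.splits _
  have hcard : ((minpoly L ζ).aroots (PadicAlgCl ℓ)).card = (minpoly L ζ).natDegree := by
    rw [aroots_def, ← hsplit.natDegree_eq_card_roots, natDegree_map]
  have hnodup : ((minpoly L ζ).aroots (PadicAlgCl ℓ)).Nodup :=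
    nodup_aroots_iff_of_splits (minpoly.ne_zero hint) hsplit |>.mpr (minpoly.irreducible hint).separable
  have hsub : ((minpoly L ζ).aroots (PadicAlgCl ℓ)).toFinset ⊆
      (Finset.range i).image fun j => (τ ^ j) ζ := by
    intro y hy
    rw [Multiset.mem_toFinset, mem_aroots] at hy
    obtain ⟨g, hg⟩ := minpoly.exists_algEquiv_of_root' (K := L) (x := y) (y := ζ)
      hint.isAlgebraic hy.2
    obtain ⟨j, hj⟩ := hτ' g
    have h1 : g ζ = (τ ^ j) ζ := hχ g (τ ^ j) (by rw [hj, map_zpow])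
    rw [Finset.mem_image]
    have hi0 : (0 : ℤ) < i := by exact_mod_cast hi
    refine ⟨(j % i).toNat, ?_, ?_⟩
    · rw [Finset.mem_range]
      have := Int.emod_lt_of_pos j hi0
      have h0 := Int.emod_nonneg j hi0.ne'
      omega
    · rw [← hg, h1]
      have h2 : (((j % i).toNat : ℕ) : ℤ) = j % i := Int.toNat_of_nonneg (Int.emod_nonneg j hi0.ne')
      rw [← zpow_natCast, h2]
      have h3 : τ ^ j = τ ^ (j % (i : ℤ)) * τ ^ ((i : ℤ) * (j / i)) := by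
        rw [← _root_.zpow_add]
        congr 1
        rw [Int.emod_add_mul_ediv]
      rw [h3, AlgEquiv.mul_apply, hfixm]
  have h4 := Finset.card_le_card hsub
  rw [Multiset.toFinset_card_of_nodup hnodup, hcard] at h4
  have h5 := h4.trans Finset.card_image_le
  rw [Finset.card_range] at h5
  omega

/-- elements fixed by the Galois group -/
theorem mem_of_fixed (M : IntermediateField ℚ_[ℓ] (PadicAlgCl ℓ)) {x : PadicAlgCl ℓ}
    (h : ∀ γ : PadicAlgCl ℓ ≃ₐ[M] PadicAlgCl ℓ, γ x = x) : x ∈ M := by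
  have h1 : x ∈ Set.range (algebraMap M (PadicAlgCl ℓ)) :=
    (InfiniteGalois.mem_range_algebraMap_iff_fixed x).mpr h
  obtain ⟨y, rfl⟩ := h1
  exact y.2

variable {F : Type} [Field F] [NumberField F] {n : ℕ}

/-- **Descent over the algebraic closure of `ℚ_ℓ`.** -/
theorem descent_padic (hn : 0 < n) (L : IntermediateField ℚ_[ℓ] (PadicAlgCl ℓ))
    {T : HeightOneSpectrum (𝓞 F) → (PadicAlgCl ℓ)[X]} {V : Set (HeightOneSpectrum (𝓞 F))}
    (hV : Tendsto (dens fun v => v ∉ V) atTop (𝓝 0))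
    (hT1 : ∀ v ∈ V, (T v).Monic) (hTn : ∀ v ∈ V, (T v).natDegree = n)
    (hTL : ∀ v ∈ V, ∀ i, (T v).coeff i ∈ L)
    {H : Subgroup (GK F)}
    (hT : Tower {τ | Continuous τ ∧ ∀ x ∈ L, τ x = x} n Set.univ H) (hH : IsOpen (H : Set (GK F)))
    {ρ : H →* GL (Fin n) (PadicAlgCl ℓ)}
    (hc : Continuous fun x => (ρ x : Matrix (Fin n) (Fin n) (PadicAlgCl ℓ))) (hsp : Spans ρ)
    (hr : ∀ v ∈ V, Right T H ρ v) :
    ∃ R : GK F →* GL (Fin n) (PadicAlgCl ℓ),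
      Continuous (fun x => (R x : Matrix (Fin n) (Fin n) (PadicAlgCl ℓ))) ∧
      (∀ (x : GK F) (hx : x ∈ H), R x = ρ ⟨x, hx⟩) ∧ Spans R ∧
      (∀ v ∈ V, ∀ σ : GK F, IsFrob v σ →
        (R σ : Matrix (Fin n) (Fin n) (PadicAlgCl ℓ)).charpoly = T v) ∧
      (∀ v ∈ V, Unr H ρ v → ∀ Q, Above v Q → ∀ σ : GK F, FrobPow v Q 0 σ → R σ = 1) ∧
      (∀ M : IntermediateField ℚ_[ℓ] (PadicAlgCl ℓ), L ≤ M →
        (∀ x i j, (ρ x : Matrix (Fin n) (Fin n) (PadicAlgCl ℓ)) i j ∈ M) →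
        ∀ x i j, (R x : Matrix (Fin n) (Fin n) (PadicAlgCl ℓ)) i j ∈ M) := by
  classical
  let T' : HeightOneSpectrum (𝓞 F) → (PadicAlgCl ℓ)[X] := fun v => if v ∈ V then T v else X ^ n
  have hTV : ∀ v ∈ V, T' v = T v := fun v hv => if_pos hv
  have hTV' : ∀ v, v ∉ V → T' v = X ^ n := fun v hv => if_neg hv
  have hT1' : ∀ v, (T' v).Monic := by
    intro v
    by_cases hv : v ∈ V
    · rw [hTV v hv]
      exact hT1 v hv
    · rw [hTV' v hv]
      exact monic_X_pow n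
  have hTn' : ∀ v, (T' v).natDegree = n := by
    intro v
    by_cases hv : v ∈ V
    · rw [hTV v hv, hTn v hv]
    · rw [hTV' v hv, natDegree_X_pow]
  have hTτ : ∀ τ : PadicAlgCl ℓ ≃+* PadicAlgCl ℓ, (∀ x ∈ L, τ x = x) →
      ∀ v, (T' v).map (τ : PadicAlgCl ℓ →+* PadicAlgCl ℓ) = T' v := by
    intro τ hτ v
    by_cases hv : v ∈ V
    · rw [hTV v hv]
      ext i
      rw [coeff_map, RingHom.coe_coe, hτ _ (hTL v hv i)]
    · rw [hTV' v hv, Polynomial.map_pow, map_X]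
  have hRt : ∀ v ∈ V, Right T' H ρ v := by
    intro v hv Q hQ m hm σ h hfr
    rw [hTV v hv]
    exact hr v hv Q hQ m hm σ h hfr
  have hB : Tendsto (dens fun v => ¬ Right T' H ρ v) atTop (𝓝 0) :=
    squeeze_zero (fun N => dens_nonneg _ N)
      (fun N => dens_mono (fun v hv hvV => hv (hRt v hvV)) N) hV
  obtain ⟨R, h1, h2, h3, h4, h5, h6⟩ := descent hn (fun τ hτ => hτ.1) hT1' hTn'
    (fun τ hτ => hTτ τ hτ.2) hT hH hc hsp hB
  refine ⟨R, h1, h2, h3, fun v hv σ hσ => ?_, fun v hv hu => h5 v (Set.mem_univ v) (hRt v hv) hu,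
    fun M hLM hM x i j => ?_⟩
  · rw [h4 v (hRt v hv) σ hσ, hTV v hv]
  · apply mem_of_fixed M
    intro γ
    have h7 := h6 γ.toRingEquiv (continuous_aut' M γ)
      (hTτ _ fun y hy => γ.commutes ⟨y, hLM hy⟩) (by
        intro y
        apply Units.ext
        rw [mp_apply]
        ext i j
        exact γ.commutes ⟨_, hM y i j⟩) x
    have h8 := congrArg (fun A : GL (Fin n) (PadicAlgCl ℓ) =>
      (A : Matrix (Fin n) (Fin n) (PadicAlgCl ℓ)) i j) h7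
    exact h8

theorem tower_step {L : IntermediateField ℚ_[ℓ] (PadicAlgCl ℓ)} {H H' : Subgroup (GK F)} {p : ℕ}
    (hp : GoodLoc L n p)
    (ih : Tower {τ : PadicAlgCl ℓ ≃+* PadicAlgCl ℓ | Continuous τ ∧ ∀ x ∈ L, τ x = x} n
      Set.univ H') (hle : H ≤ H') (hn : (H.subgroupOf H').Normal) (hi : H.relIndex H' = p) :
    Tower {τ : PadicAlgCl ℓ ≃+* PadicAlgCl ℓ | Continuous τ ∧ ∀ x ∈ L, τ x = x} n Set.univ H := by
  obtain ⟨τ, hτ⟩ := exists_good hp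
  exact Tower.step H H' p τ.toRingEquiv ⟨continuous_aut' L τ, fun x hx => τ.commutes ⟨x, hx⟩⟩ hτ ih
    hle hn hi (Or.inl (Nat.cast_ne_zero.mpr hp.1.ne_zero))

end Run7.h427.CY
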