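import Pool.Agent.Run7.h427.CY.Padic

/-!
# Symplectic and orthogonal representations, semisimplicity
-/

set_option autoImplicit false

namespace Run7.h427.CY

open Matrix Topology Filter NumberField IsDedekindDomain Polynomial
open Pool.Agent.W401.Cheb Pool.Agent.W528.Ord
open Run7.h427.PL (exists_frob_dens vanish isFrob_conj)

variable {F : Type} [Field F] [NumberField F] {K : Type} [Field K] {n : ℕ}

/-- an eigenvector of a matrix -/
theorem exists_eigen {A : Matrix (Fin n) (Fin n) K} {x : K} (hx : x ∈ A.charpoly.roots) :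
    ∃ w : Fin n → K, w ≠ 0 ∧ A *ᵥ w = x • w := by
  rw [mem_roots A.charpoly_monic.ne_zero, ← Matrix.charpoly_toLin',
    ← Module.End.hasEigenvalue_iff_isRoot_charpoly] at hx
  obtain ⟨w, hw⟩ := hx.exists_hasEigenvector
  exact ⟨w, hw.2, hw.apply_eq_smul⟩

/-- the eigenvalues of a similitude -/
theorem sim_eigen {A J : Matrix (Fin n) (Fin n) K} (hA : A.det ≠ 0) (hJ : J.det ≠ 0) {c : K}
    (h : Aᵀ * J * A = c • J) {x : K} (hx : x ∈ A.charpoly.roots) : c / x ∈ A.charpoly.roots := by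
  obtain ⟨w, hw0, hw⟩ := exists_eigen hx
  have hx0 : x ≠ 0 := by
    rintro rfl
    rw [zero_smul] at hw
    exact hw0 (Matrix.eq_zero_of_mulVec_eq_zero hA hw)
  have h1 : Aᵀ *ᵥ (J *ᵥ w) = (c / x) • (J *ᵥ w) := by
    have h2 : (Aᵀ * J * A) *ᵥ w = (c • J) *ᵥ w := by rw [h]
    rw [← Matrix.mulVec_mulVec, hw, Matrix.mulVec_smul, ← Matrix.mulVec_mulVec,
      Matrix.smul_mulVec] at h2
    rw [div_eq_inv_mul, mul_smul, ← h2, smul_smul, inv_mul_cancel₀ hx0, one_smul]
  have h3 : J *ᵥ w ≠ 0 := fun h0 => hw0 (Matrix.eq_zero_of_mulVec_eq_zero hJ h0)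
  have h4 := mem_roots_of_eigen (A := Aᵀ) h3 (a := c / x) (by rw [Matrix.toLin'_apply, h1])
  rwa [Matrix.charpoly_transpose] at h4

variable [TopologicalSpace K] [IsTopologicalRing K] [T2Space K]

/-- The matrices of the elements of `H` are similitudes of the form with matrix `J`. -/
def SimOn (R : GK F →* GL (Fin n) K) (J : Matrix (Fin n) (Fin n) K) (H : Subgroup (GK F)) : Prop :=
  ∀ g ∈ H, ∃ c : K, (R g : Matrix (Fin n) (Fin n) K)ᵀ * J * (R g : Matrix (Fin n) (Fin n) K) = c • J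

/-- The similitude factors at the primes in `V` are given by `c`. -/
def SimAt (R : GK F →* GL (Fin n) K) (J : Matrix (Fin n) (Fin n) K) (H : Subgroup (GK F))
    (V : Set (HeightOneSpectrum (𝓞 F))) (c : HeightOneSpectrum (𝓞 F) → K) : Prop :=
  ∀ v ∈ V, ∀ Q, Above v Q → ∀ m : ℕ, 0 < m → ∀ σ ∈ H, FrobPow v Q m σ →
    (R σ : Matrix (Fin n) (Fin n) K)ᵀ * J * (R σ : Matrix (Fin n) (Fin n) K) = (c v ^ m) • J

omit [TopologicalSpace K] [IsTopologicalRing K] [T2Space K] in
theorem sim_mul {A B J : Matrix (Fin n) (Fin n) K} :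
    (A * B)ᵀ * J * (A * B) = Bᵀ * (Aᵀ * J * A) * B := by
  rw [Matrix.transpose_mul]
  simp only [Matrix.mul_assoc]

theorem sim_step (hn : 0 < n) {τ : K ≃+* K} {p : ℕ} (hp : Good τ n p)
    {R : GK F →* GL (Fin n) K} (hc : Continuous fun x => (R x : Matrix (Fin n) (Fin n) K))
    {H H' : Subgroup (GK F)} (hH : IsOpen (H : Set (GK F))) (hle : H ≤ H')
    (hnorm : (H.subgroupOf H').Normal) (hidx : H.relIndex H' = p)
    (hsp : Spans (R.comp H.subtype)) {V : Set (HeightOneSpectrum (𝓞 F))}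
    (hV : Tendsto (dens fun v => v ∉ V) atTop (𝓝 0))
    {T : HeightOneSpectrum (𝓞 F) → K[X]} (hTn : ∀ v ∈ V, (T v).roots.card = n)
    (hTτ : ∀ v ∈ V, ∀ x ∈ (T v).roots, τ x ∈ (T v).roots)
    (hRt : ∀ v ∈ V, ∀ Q, Above v Q → ∀ m : ℕ, 0 < m → ∀ σ : GK F, FrobPow v Q m σ →
      (R σ : Matrix (Fin n) (Fin n) K).charpoly.roots = (T v).roots.map fun a => a ^ m)
    {J : Matrix (Fin n) (Fin n) K} (hJ : J.det ≠ 0) {c : HeightOneSpectrum (𝓞 F) → K}
    (hc0 : ∀ v ∈ V, c v ≠ 0) (hcT : ∀ v ∈ V, ∀ x ∈ (T v).roots, c v / x ∈ (T v).roots)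
    (hS : SimOn R J H) (hA : SimAt R J H V c) : SimOn R J H' ∧ SimAt R J H' V c := by
  have hdet : ∀ g, (R g : Matrix (Fin n) (Fin n) K).det ≠ 0 := fun g =>
    ((Matrix.isUnit_iff_isUnit_det _).mp (R g).isUnit).ne_zero
  have hJ0 : J ≠ 0 := by
    rintro rfl
    have : Nonempty (Fin n) := ⟨⟨0, hn⟩⟩
    exact hJ Matrix.det_zero
  let q : GK F → Matrix (Fin n) (Fin n) K := fun g =>
    (R g : Matrix (Fin n) (Fin n) K)ᵀ * J * (R g : Matrix (Fin n) (Fin n) K)
  have hqmul : ∀ g h, q (g * h) = (R h : Matrix (Fin n) (Fin n) K)ᵀ * q g *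
      (R h : Matrix (Fin n) (Fin n) K) := by
    intro g h
    change (R (g * h) : Matrix (Fin n) (Fin n) K)ᵀ * J * (R (g * h) : Matrix (Fin n) (Fin n) K) = _
    rw [map_mul, Units.val_mul, sim_mul]
  have hqc : Continuous q := by
    have h1 : Continuous fun g => (R g : Matrix (Fin n) (Fin n) K)ᵀ := hc.matrix_transpose
    exact (h1.matrix_mul continuous_const).matrix_mul hc
  have hN : ∀ g ∈ H', ∀ h ∈ H, g * h * g⁻¹ ∈ H := fun g hg h hh =>
    hnorm.conj_mem ⟨h, hle hh⟩ hh ⟨g, hg⟩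
  -- the form is invariant under conjugation
  have hinv : ∀ g ∈ H', ∀ h ∈ H, q (g * h * g⁻¹) = q h := by
    intro g hg h hh
    ext i j
    have h1 := vanish H hH (fun y => q (g * y * g⁻¹) i j - q y i j)
      (((hqc.comp ((continuous_const.mul continuous_subtype_val).mul continuous_const)).matrix_elem
        i j).sub ((hqc.comp continuous_subtype_val).matrix_elem i j)) _ hV (by
        intro v hv x hx hfr
        rw [not_not] at hv
        obtain ⟨Q, hQ, hfQ⟩ := isFrob_above hfr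
        obtain ⟨Q', hQ', hfQ'⟩ := isFrob_above (isFrob_conj v x g hfr)
        have h2 : q x = _ := hA v hv Q hQ 1 one_pos x hx hfQ
        have h3 : q (g * x * g⁻¹) = _ := hA v hv Q' hQ' 1 one_pos _ (hN g hg x hx) hfQ'
        change q (g * x * g⁻¹) i j - q x i j = 0
        rw [h2, h3, sub_self])
    exact sub_eq_zero.mp (h1 ⟨h, hh⟩)
  have hSim : SimOn R J H' := by
    intro g hg
    obtain ⟨d, hd⟩ := scalar_of_comm hsp (J⁻¹ * q g) (by
      rintro ⟨h, hh⟩
      change (R h : Matrix (Fin n) (Fin n) K) * (J⁻¹ * q g) = J⁻¹ * q g * (R h : Matrix (Fin n) (Fin n) K)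
      obtain ⟨μ, hμ⟩ := hS h hh
      have hJu : IsUnit J.det := isUnit_iff_ne_zero.mpr hJ
      have hμ0 : μ ≠ 0 := by
        rintro rfl
        rw [zero_smul] at hμ
        have h1 := congrArg Matrix.det hμ
        have : Nonempty (Fin n) := ⟨⟨0, hn⟩⟩
        rw [Matrix.det_mul, Matrix.det_mul, Matrix.det_transpose, Matrix.det_zero] at h1
        exact (mul_ne_zero (mul_ne_zero (hdet h) hJ) (hdet h)) h1
      have h1 : (R h : Matrix (Fin n) (Fin n) K)ᵀ * q g * (R h : Matrix (Fin n) (Fin n) K) =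
          μ • q g := by
        rw [← hqmul]
        have h2 : g * h = (g * h * g⁻¹) * g := by group
        rw [h2, hqmul, hinv g hg h hh]
        change (R g : Matrix (Fin n) (Fin n) K)ᵀ * ((R h : Matrix (Fin n) (Fin n) K)ᵀ * J *
          (R h : Matrix (Fin n) (Fin n) K)) * (R g : Matrix (Fin n) (Fin n) K) = _
        rw [hμ, Matrix.mul_smul, Matrix.smul_mul]
      -- cancel
      have h3 : (R h : Matrix (Fin n) (Fin n) K)ᵀ * J * ((R h : Matrix (Fin n) (Fin n) K) *
          (J⁻¹ * q g)) = (R h : Matrix (Fin n) (Fin n) K)ᵀ * J * (J⁻¹ * q g *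
          (R h : Matrix (Fin n) (Fin n) K)) := by
        have h4 : (R h : Matrix (Fin n) (Fin n) K)ᵀ * J * ((R h : Matrix (Fin n) (Fin n) K) *
            (J⁻¹ * q g)) = μ • q g := by
          rw [← Matrix.mul_assoc, hμ, Matrix.smul_mul, Matrix.mul_nonsing_inv_cancel_left _ _ hJu]
        have h5 : (R h : Matrix (Fin n) (Fin n) K)ᵀ * J * (J⁻¹ * q g *
            (R h : Matrix (Fin n) (Fin n) K)) = μ • q g := by
          rw [Matrix.mul_assoc, Matrix.mul_assoc J⁻¹, Matrix.mul_nonsing_inv_cancel_left _ _ hJu,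
            ← Matrix.mul_assoc, h1]
        rw [h4, h5]
      have h6 : IsUnit ((R h : Matrix (Fin n) (Fin n) K)ᵀ * J) := by
        rw [Matrix.isUnit_iff_isUnit_det, Matrix.det_mul, Matrix.det_transpose]
        exact isUnit_iff_ne_zero.mpr (mul_ne_zero (hdet h) hJ)
      exact h6.mul_left_cancel h3)
    refine ⟨d, ?_⟩
    have hJu : IsUnit J.det := isUnit_iff_ne_zero.mpr hJ
    have h1 : J * (J⁻¹ * q g) = q g := Matrix.mul_nonsing_inv_cancel_left _ _ hJu
    rw [hd] at h1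
    change q g = _
    rw [← h1]
    ext i j
    simp [mul_comm]
  refine ⟨hSim, ?_⟩
  intro v hv Q hQ m hm σ hσ hfr
  obtain ⟨c', hc'⟩ := hSim σ hσ
  rw [hc']
  congr 1
  have hc'0 : c' ≠ 0 := by
    rintro rfl
    rw [zero_smul] at hc'
    have h1 := congrArg Matrix.det hc'
    have : Nonempty (Fin n) := ⟨⟨0, hn⟩⟩
    rw [Matrix.det_mul, Matrix.det_mul, Matrix.det_transpose, Matrix.det_zero] at h1
    exact (mul_ne_zero (mul_ne_zero (hdet σ) hJ) (hdet σ)) h1
  have hpow : ∀ k : ℕ, q (σ ^ k) = (c' ^ k) • J := by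
    intro k
    induction k with
    | zero =>
      rw [pow_zero, pow_zero, one_smul]
      change (R 1 : Matrix (Fin n) (Fin n) K)ᵀ * J * (R 1 : Matrix (Fin n) (Fin n) K) = J
      rw [map_one, Units.val_one, Matrix.transpose_one, one_mul, mul_one]
    | succ k ih =>
      rw [pow_succ, hqmul, ih, Matrix.mul_smul, Matrix.smul_mul, hc', smul_smul, pow_succ]
  have hσp : σ ^ p ∈ H := by
    let N : Subgroup H' := H.subgroupOf H'
    have hNn : N.Normal := hnorm
    have h1 : (QuotientGroup.mk (⟨σ, hσ⟩ : H') : H' ⧸ N) ^ p = 1 := by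
      have h2 : Nat.card (H' ⧸ N) = p := hidx
      rw [← h2]
      exact pow_card_eq_one'
    rw [← QuotientGroup.mk_pow, QuotientGroup.eq_one_iff] at h1
    exact h1
  have h1 := hA v hv Q hQ (m * p) (Nat.mul_pos hm hp.1.pos) (σ ^ p) hσp (hfr.pow hQ p)
  have h2 := hpow p
  change q (σ ^ p) = _ at h1
  rw [h2] at h1
  have h3 : c' ^ p = (c v ^ m) ^ p := by
    rw [← pow_mul]
    by_contra hne
    apply hJ0
    have h4 : (c' ^ p - c v ^ (m * p)) • J = 0 := by rw [sub_smul, h1, sub_self]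
    exact (smul_eq_zero.mp h4).resolve_left (sub_ne_zero.mpr hne)
  -- eigenvalues
  let M := (T v).roots.map fun a => a ^ m
  have hM : (R σ : Matrix (Fin n) (Fin n) K).charpoly.roots = M := hRt v hv Q hQ m hm σ hfr
  have hMc : M.card ≤ n := by rw [Multiset.card_map, hTn v hv]
  have hMτ : ∀ x ∈ M, τ x ∈ M := by
    intro y hy
    obtain ⟨a, ha, rfl⟩ := Multiset.mem_map.mp hy
    exact Multiset.mem_map.mpr ⟨τ a, hTτ v hv a ha, (map_pow τ a m).symm⟩
  obtain ⟨x, hx⟩ : ∃ x, x ∈ M := by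
    apply Multiset.exists_mem_of_ne_zero
    rw [Ne, ← Multiset.card_eq_zero, Multiset.card_map, hTn v hv]
    omega
  have hz : c' / x ∈ M := by
    rw [← hM] at hx ⊢
    exact sim_eigen (hdet σ) hJ hc' hx
  have hx0 : x ≠ 0 := by
    rintro rfl
    rw [← hM] at hx
    obtain ⟨w, hw0, hw⟩ := exists_eigen hx
    rw [zero_smul] at hw
    exact hw0 (Matrix.eq_zero_of_mulVec_eq_zero (hdet σ) hw)
  have hcc : ∀ y ∈ M, c v ^ m / y ∈ M := by
    intro y hy
    obtain ⟨a, ha, rfl⟩ := Multiset.mem_map.mp hy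
    exact Multiset.mem_map.mpr ⟨c v / a, hcT v hv a ha, div_pow _ _ _⟩
  have h4 := hcc _ hz
  have h5 := eq_of_pow_eq hp hMc hMc hMτ hMτ hx h4 (by
    rw [div_pow, div_pow, h3, ← div_mul, div_self (pow_ne_zero p (pow_ne_zero m (hc0 v hv))),
      one_mul])
  have h6 : x * (c' / x) = c v ^ m := (eq_div_iff (div_ne_zero hc'0 hx0)).mp h5
  rw [mul_div_cancel₀ _ hx0] at h6
  exact h6

/-- **Forms descend through towers.** -/
theorem sim_descent (hn : 0 < n) {R : GK F →* GL (Fin n) K}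
    (hc : Continuous fun x => (R x : Matrix (Fin n) (Fin n) K))
    {V : Set (HeightOneSpectrum (𝓞 F))} (hV : Tendsto (dens fun v => v ∉ V) atTop (𝓝 0))
    {T : HeightOneSpectrum (𝓞 F) → K[X]} (hTn : ∀ v ∈ V, (T v).roots.card = n)
    {𝒯 : Set (K ≃+* K)} (hTτ : ∀ τ ∈ 𝒯, ∀ v ∈ V, ∀ x ∈ (T v).roots, τ x ∈ (T v).roots)
    (hRt : ∀ v ∈ V, ∀ Q, Above v Q → ∀ m : ℕ, 0 < m → ∀ σ : GK F, FrobPow v Q m σ →
      (R σ : Matrix (Fin n) (Fin n) K).charpoly.roots = (T v).roots.map fun a => a ^ m)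
    {J : Matrix (Fin n) (Fin n) K} (hJ : J.det ≠ 0) {c : HeightOneSpectrum (𝓞 F) → K}
    (hc0 : ∀ v ∈ V, c v ≠ 0) (hcT : ∀ v ∈ V, ∀ x ∈ (T v).roots, c v / x ∈ (T v).roots)
    {V' : Set (HeightOneSpectrum (𝓞 F))} {H : Subgroup (GK F)} (hT : Tower 𝒯 n V' H) :
    IsOpen (H : Set (GK F)) → Spans (R.comp H.subtype) → SimOn R J H → SimAt R J H V c →
    SimOn R J ⊤ ∧ SimAt R J ⊤ V c := by
  induction hT with
  | top => exact fun _ _ h1 h2 => ⟨h1, h2⟩
  | step H H' p τ hτ hp _ hle hnorm hidx _ ih =>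
    intro hH hsp h1 h2
    obtain ⟨h3, h4⟩ := sim_step hn hp hc hH hle hnorm hidx hsp hV hTn (hTτ τ hτ) hRt hJ hc0 hcT
      h1 h2
    refine ih (Subgroup.isOpen_mono hle hH) ?_ h3 h4
    unfold Spans
    rw [eq_top_iff]
    have h5 : Submodule.span K (Set.range fun g =>
        ((R.comp H.subtype) g : Matrix (Fin n) (Fin n) K)) = ⊤ := hsp
    rw [← h5]
    apply Submodule.span_mono
    rintro _ ⟨⟨x, hx⟩, rfl⟩
    exact ⟨⟨x, hle hx⟩, rfl⟩

omit [TopologicalSpace K] [IsTopologicalRing K] [T2Space K] in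
/-- an invertible endomorphism with a semisimple power is semisimple -/
theorem ss_of_pow [CharZero K] {V : Type} [AddCommGroup V] [Module K V] [FiniteDimensional K V]
    {f : Module.End K V} (hf : Function.Injective f) {m : ℕ} (hm : 0 < m)
    (h : (f ^ m).IsSemisimple) : f.IsSemisimple := by
  have hsq := h.minpoly_squarefree
  set g := minpoly K (f ^ m) with hg
  have hinj : Function.Injective (f ^ m) := by
    rw [Module.End.coe_pow]
    exact hf.iterate m
  have hg0 : g.coeff 0 ≠ 0 := by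
    intro h0
    rw [coeff_zero_eq_eval_zero] at h0
    have h1 := Module.End.hasEigenvalue_of_isRoot (f := f ^ m) (μ := 0) h0
    obtain ⟨w, hw⟩ := h1.exists_hasEigenvector
    have h2 := hw.apply_eq_smul
    rw [zero_smul] at h2
    exact hw.2 (hinj (by rw [h2, map_zero]))
  have hsep : g.Separable := PerfectField.separable_iff_squarefree.mpr hsq
  have hexp : (expand K m g).Separable := by
    rw [separable_def, derivative_expand]
    apply IsCoprime.mul_right
    · exact IsCoprime.map hsep (expand K m).toRingHom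
    · have hm0 : (m : K) ≠ 0 := Nat.cast_ne_zero.mpr hm.ne'
      apply IsCoprime.mul_right
      · refine ⟨0, C ((m : K)⁻¹), ?_⟩
        rw [zero_mul, zero_add, ← C_eq_natCast, ← C_mul, inv_mul_cancel₀ hm0, C_1]
      · apply IsCoprime.pow_right
        refine (irreducible_X.coprime_iff_not_dvd.mpr ?_).symm
        rw [X_dvd_iff]
        rwa [coeff_zero_eq_eval_zero, expand_eval, zero_pow hm.ne', ← coeff_zero_eq_eval_zero]
  refine Module.End.isSemisimple_of_squarefree_aeval_eq_zero hexp.squarefree ?_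
  rw [expand_aeval]
  exact minpoly.aeval K (f ^ m)

end Run7.h427.CY
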