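import Pool.Agent.Run7.h427.CY.Arith

/-!
# Solvable extensions are towers of cyclic extensions of prime degrees
-/

set_option autoImplicit false

namespace Run7.h427.CY

open Topology NumberField IsDedekindDomain
open Pool.Agent.W401.Cheb

/-- a nontrivial finite solvable group has a normal subgroup of prime index -/
theorem exists_prime_index (Q : Type) [Group Q] [Finite Q] [Nontrivial Q] [Group.IsSolvable Q] :
    ∃ M : Subgroup Q, M.Normal ∧ M.index.Prime := by
  classical
  have h1 : commutator Q < ⊤ := Group.IsSolvable.commutator_lt_top_of_nontrivial Q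
  obtain h2 | ⟨M, hM, hle⟩ := eq_top_or_exists_le_coatom (commutator Q)
  · exact absurd h2 h1.ne
  have hMn : M.Normal := by
    constructor
    intro x hx g
    have h3 : g * x * g⁻¹ * x⁻¹ ∈ M := hle (Subgroup.commutator_mem_commutator
      (Subgroup.mem_top g) (Subgroup.mem_top x))
    exact (M.mul_mem_cancel_right (M.inv_mem hx)).mp h3
  refine ⟨M, hMn, ?_⟩
  have hnt : Nontrivial (Q ⧸ M) := QuotientGroup.nontrivial_iff.mpr hM.1
  have hcard : Nat.card (Q ⧸ M) ≠ 1 := by
    have := Finite.one_lt_card (α := Q ⧸ M)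
    omega
  have hp := Nat.minFac_prime hcard
  have hfact : Fact (Nat.minFac (Nat.card (Q ⧸ M))).Prime := ⟨hp⟩
  obtain ⟨x, hx⟩ := exists_prime_orderOf_dvd_card' (G := Q ⧸ M) _
    (Nat.minFac_dvd (Nat.card (Q ⧸ M)))
  have h3 : (Subgroup.zpowers x).comap (QuotientGroup.mk' M) = ⊤ := by
    apply hM.2
    refine lt_of_le_of_ne ?_ ?_
    · intro y hy
      rw [Subgroup.mem_comap, QuotientGroup.mk'_apply, (QuotientGroup.eq_one_iff y).mpr hy]
      exact Subgroup.one_mem _
    · intro heq
      obtain ⟨y, hy⟩ := QuotientGroup.mk'_surjective M x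
      have h4 : y ∈ (Subgroup.zpowers x).comap (QuotientGroup.mk' M) := by
        rw [Subgroup.mem_comap, hy]
        exact Subgroup.mem_zpowers x
      rw [← heq] at h4
      have h5 : x = 1 := by
        rw [← hy, QuotientGroup.mk'_apply]
        exact (QuotientGroup.eq_one_iff y).mpr h4
      rw [h5, orderOf_one] at hx
      exact hp.one_lt.ne hx
  have h4 : Subgroup.zpowers x = ⊤ := by
    rw [eq_top_iff]
    intro z _
    obtain ⟨y, rfl⟩ := QuotientGroup.mk'_surjective M z
    have : y ∈ (Subgroup.zpowers x).comap (QuotientGroup.mk' M) := by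
      rw [h3]
      exact Subgroup.mem_top y
    exact this
  have h5 : M.index = orderOf x := by
    rw [← Nat.card_zpowers, h4, Subgroup.card_top]
    rfl
  rw [h5, hx]
  exact hp

variable {F : Type} [Field F] [NumberField F] {K : Type} [Field K]

/-- induction along a chain of cyclic extensions of prime degrees -/
theorem chain_induction {H : Subgroup (GK F)} [hHn : H.Normal] (hH : IsOpen (H : Set (GK F)))
    [hsolv : Group.IsSolvable (GK F ⧸ H)] (P : Subgroup (GK F) → Prop) (hbase : P ⊤)
    (hstep : ∀ M H' : Subgroup (GK F), H ≤ M → M ≤ H' → (M.subgroupOf H').Normal →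
      (M.relIndex H').Prime → M.relIndex H' ∣ H.index → P H' → P M) : P H := by
  have hfin : Finite (GK F ⧸ H) := Subgroup.quotient_finite_of_isOpen H hH
  have key : ∀ (m : ℕ) (H' : Subgroup (GK F)), H ≤ H' → H.relIndex H' = m → P H' → P H := by
    intro m
    induction m using Nat.strong_induction_on with
    | _ m ih =>
      intro H' hle hm hT
      by_cases heq : H' ≤ H
      · rwa [le_antisymm hle heq]
      let N : Subgroup H' := H.subgroupOf H'
      have hNn : N.Normal := hHn.subgroupOf H'
      let f : H' ⧸ N →* GK F ⧸ H := QuotientGroup.map N H H'.subtype le_rfl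
      have hf : Function.Injective f := by
        rw [injective_iff_map_eq_one]
        intro y hy
        obtain ⟨x, rfl⟩ := QuotientGroup.mk_surjective y
        have h1 : f (QuotientGroup.mk x) = QuotientGroup.mk (x : GK F) := rfl
        rw [h1, QuotientGroup.eq_one_iff] at hy
        exact (QuotientGroup.eq_one_iff x).mpr hy
      have hfinQ : Finite (H' ⧸ N) := Finite.of_injective f hf
      have hsolvQ : Group.IsSolvable (H' ⧸ N) := Group.isSolvable_of_isSolvable_injective hf
      have hNt : N ≠ ⊤ := by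
        intro h
        exact heq (Subgroup.subgroupOf_eq_top.mp h)
      have hnt : Nontrivial (H' ⧸ N) := QuotientGroup.nontrivial_iff.mpr hNt
      obtain ⟨M, hMn, hMp⟩ := exists_prime_index (H' ⧸ N)
      let M' : Subgroup H' := M.comap (QuotientGroup.mk' N)
      have hM'n : M'.Normal := hMn.comap _
      have hM'i : M'.index = M.index :=
        Subgroup.index_comap_of_surjective _ (QuotientGroup.mk'_surjective N)
      let M₁ : Subgroup (GK F) := M'.map H'.subtype
      have hM₁ : M₁.subgroupOf H' = M' :=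
        Subgroup.comap_map_eq_self_of_injective H'.subtype_injective M'
      have hM₁le : M₁ ≤ H' := Subgroup.map_subtype_le M'
      have hHM₁ : H ≤ M₁ := by
        intro x hx
        refine ⟨⟨x, hle hx⟩, ?_, rfl⟩
        change QuotientGroup.mk' N ⟨x, hle hx⟩ ∈ M
        have h1 : QuotientGroup.mk' N ⟨x, hle hx⟩ = 1 :=
          (QuotientGroup.eq_one_iff _).mpr (show (⟨x, hle hx⟩ : H') ∈ N from hx)
        rw [h1]
        exact M.one_mem
      have hrel : M₁.relIndex H' = M.index := by
        rw [Subgroup.relIndex, hM₁, hM'i]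
      have hmul : H.relIndex M₁ * M₁.relIndex H' = H.relIndex H' :=
        Subgroup.relIndex_mul_relIndex H M₁ H' hHM₁ hM₁le
      have hdvd : M₁.relIndex H' ∣ H.index := by
        have h1 : H.relIndex H' ∣ H.index := Subgroup.relIndex_dvd_index_of_le hle
        exact (Dvd.intro_left _ hmul).trans h1
      have hTM : P M₁ := hstep M₁ H' hHM₁ hM₁le (by rw [hM₁]; exact hM'n) (by rw [hrel]; exact hMp)
        hdvd hT
      have hidx0 : H.relIndex H' ≠ 0 := by
        have : N.index ≠ 0 := Subgroup.index_ne_zero_of_finite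
        exact this
      refine ih (H.relIndex M₁) ?_ M₁ hHM₁ rfl hTM
      rw [← hm, ← hmul, hrel]
      have h0 : 0 < H.relIndex M₁ := by
        rw [← hmul] at hidx0
        exact Nat.pos_of_ne_zero (left_ne_zero_of_mul hidx0)
      exact (Nat.lt_mul_iff_one_lt_right h0).mpr hMp.one_lt
  exact key _ ⊤ le_top rfl hbase

/-- **Solvable Galois extensions of good degree are towers.** -/
theorem tower_of_solvable {𝒯 : Set (K ≃+* K)} {n : ℕ} {V : Set (HeightOneSpectrum (𝓞 F))}
    {H : Subgroup (GK F)} [hHn : H.Normal] (hH : IsOpen (H : Set (GK F)))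
    [hsolv : Group.IsSolvable (GK F ⧸ H)]
    (hgood : ∀ p : ℕ, p.Prime → p ∣ H.index → (∃ τ ∈ 𝒯, Good τ n p) ∧
      ((p : K) ≠ 0 ∨ ∀ v ∈ V, InertLe H ⊤ v)) : Tower 𝒯 n V H := by
  refine chain_induction hH (Tower 𝒯 n V) Tower.top ?_
  intro M H' hHM hle hn hp hdvd hT
  obtain ⟨⟨τ, hτ, hg⟩, hor⟩ := hgood _ hp hdvd
  exact Tower.step M H' _ τ hτ hg hT hle hn rfl (hor.imp id fun h v hv Q hQ σ _ hσ =>
    hHM (h v hv Q hQ σ (Subgroup.mem_top σ) hσ))

end Run7.h427.CY
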