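import Pool.Agent.Run7.h427.CY.Ext

/-!
# The canonical extension through a cyclic quotient of good prime order
-/

set_option autoImplicit false

namespace Run7.h427.CY

open Matrix Polynomial
open Run7.h427.PL (charpoly_conj trace_conj)

variable {G : Type} [Group G] {K : Type} [Field K] {n : ℕ}

/-- scalar matrices -/
def sc (n : ℕ) (u : Kˣ) : GL (Fin n) K := Units.map (Matrix.scalar (Fin n)).toMonoidHom u

theorem sc_mul (u : Kˣ) (A : GL (Fin n) K) :
    ((sc n u * A : GL (Fin n) K) : Matrix (Fin n) (Fin n) K) =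
      (u : K) • (A : Matrix (Fin n) (Fin n) K) := by
  ext i j
  rw [Units.val_mul]
  simp [sc]

theorem sc_comm (u : Kˣ) (A : GL (Fin n) K) : sc n u * A = A * sc n u := by
  apply Units.ext
  rw [sc_mul, Units.val_mul]
  ext i j
  simp [sc, mul_comm]

theorem sc_pow (u : Kˣ) (A : GL (Fin n) K) (m : ℕ) : (sc n u * A) ^ m = sc n (u ^ m) * A ^ m := by
  have h : Commute (sc n u) A := sc_comm u A
  rw [h.mul_pow]
  congr 1
  exact (map_pow (Units.map (Matrix.scalar (Fin n)).toMonoidHom) u m).symm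

theorem sc_hat {N : Subgroup G} [hNn : N.Normal] {σ : N →* GL (Fin n) K} {x : G} {A : GL (Fin n) K}
    (hA : ((x, A) : G × GL (Fin n) K) ∈ Hat σ) (u : Kˣ) :
    ((x, sc n u * A) : G × GL (Fin n) K) ∈ Hat σ := by
  intro y hy
  have h := hA y hy
  change σ ⟨x * y * x⁻¹, _⟩ = A * σ ⟨y, hy⟩ * A⁻¹ at h
  change σ ⟨x * y * x⁻¹, _⟩ = sc n u * A * σ ⟨y, hy⟩ * (sc n u * A)⁻¹
  rw [h, _root_.mul_inv_rev]
  have h2 : sc n u * A * σ ⟨y, hy⟩ * (A⁻¹ * (sc n u)⁻¹) =
      sc n u * (A * σ ⟨y, hy⟩ * A⁻¹) * (sc n u)⁻¹ := by group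
  rw [h2, sc_comm, mul_inv_cancel_right]

theorem det_smul' (c : K) (A : Matrix (Fin n) (Fin n) K) : (c • A).det = c ^ n * A.det := by
  rw [Matrix.det_smul, Fintype.card_fin]

/-- the existence of the normalised intertwining matrix -/
theorem exists_normal [IsAlgClosed K] (hn : 0 < n) {N : Subgroup G} [hNn : N.Normal]
    {σ : N →* GL (Fin n) K} (hσ : Spans σ) {τ : K ≃+* K} {p : ℕ} (hp : Good τ n p) {g : G}
    (ht : ∀ (x : G) (hx : x ∈ N), (σ ⟨g * x * g⁻¹, hNn.conj_mem x hx g⟩ :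
      Matrix (Fin n) (Fin n) K).trace = (σ ⟨x, hx⟩ : Matrix (Fin n) (Fin n) K).trace)
    (hgp : g ^ p ∈ N) {d : K} (hd : (σ ⟨g ^ p, hgp⟩ : Matrix (Fin n) (Fin n) K).det = d ^ p) :
    ∃ B : GL (Fin n) K, ((g, B) : G × GL (Fin n) K) ∈ Hat σ ∧ B ^ p = σ ⟨g ^ p, hgp⟩ ∧
      (B : Matrix (Fin n) (Fin n) K).det = d := by
  have hne : Nonempty (Fin n) := ⟨⟨0, hn⟩⟩
  obtain ⟨A, hA⟩ := exists_hat hσ g ht
  have hAp : ((g ^ p, A ^ p) : G × GL (Fin n) K) ∈ Hat σ := (Hat σ).pow_mem hA p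
  obtain ⟨c, hc⟩ := hat_unique hσ hAp (mem_hat_self hgp)
  have hc0 : c ≠ 0 := by
    rintro rfl
    rw [zero_smul] at hc
    exact (A ^ p).ne_zero hc
  obtain ⟨l, hl⟩ := IsAlgClosed.exists_pow_nat_eq c hp.1.pos
  have hl0 : l ≠ 0 := by
    rintro rfl
    rw [zero_pow hp.1.ne_zero] at hl
    exact hc0 hl.symm
  let B₁ : GL (Fin n) K := sc n (Units.mk0 l hl0)⁻¹ * A
  have hB₁ : ((g, B₁) : G × GL (Fin n) K) ∈ Hat σ := sc_hat hA _
  have hB₁p : B₁ ^ p = σ ⟨g ^ p, hgp⟩ := by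
    apply Units.ext
    rw [sc_pow, sc_mul, hc, smul_smul]
    have h1 : (((Units.mk0 l hl0)⁻¹ ^ p : Kˣ) : K) * c = 1 := by
      rw [Units.val_pow_eq_pow_val, Units.val_inv_eq_inv_val, Units.val_mk0, ← hl, ← mul_pow,
        inv_mul_cancel₀ hl0, one_pow]
    rw [h1, one_smul]
  have hdet : ((B₁ : Matrix (Fin n) (Fin n) K).det) ^ p = d ^ p := by
    rw [← hd, ← hB₁p, Units.val_pow_eq_pow_val, Matrix.det_pow]
  have hdB : (B₁ : Matrix (Fin n) (Fin n) K).det ≠ 0 :=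
    ((Matrix.isUnit_iff_isUnit_det _).mp B₁.isUnit).ne_zero
  let ξ : K := d / (B₁ : Matrix (Fin n) (Fin n) K).det
  have hξ : ξ ^ p = 1 := by
    rw [div_pow, ← hdet, div_self (pow_ne_zero p hdB)]
  obtain ⟨η, hη, hηn⟩ : ∃ η : K, η ^ p = 1 ∧ η ^ n = ξ := by
    by_cases hξ1 : ξ = 1
    · exact ⟨1, one_pow p, by rw [one_pow, hξ1]⟩
    · have hcop : Nat.Coprime n p := by
        rw [Nat.coprime_comm, Nat.Prime.coprime_iff_not_dvd hp.1]
        rintro ⟨c, hc⟩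
        exact hξ1 (hp.one_of_pow hn hξ (by rw [hc, pow_mul, hξ, one_pow]))
      obtain ⟨u, -, hu⟩ := Nat.exists_mul_mod_eq_one_of_coprime hcop hp.1.one_lt
      refine ⟨ξ ^ u, by rw [← pow_mul, mul_comm, pow_mul, hξ, one_pow], ?_⟩
      rw [← pow_mul, mul_comm u n, ← Nat.div_add_mod (n * u) p, pow_add, pow_mul, hξ, one_pow,
        one_mul, hu, pow_one]
  have hη0 : η ≠ 0 := by
    rintro rfl
    rw [zero_pow hp.1.ne_zero] at hη
    exact zero_ne_one hη
  refine ⟨sc n (Units.mk0 η hη0) * B₁, sc_hat hB₁ _, ?_, ?_⟩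
  · rw [sc_pow]
    have h1 : (Units.mk0 η hη0) ^ p = 1 := Units.ext (by
      rw [Units.val_pow_eq_pow_val, Units.val_mk0, hη, Units.val_one])
    rw [h1, hB₁p]
    have h2 : sc n (1 : Kˣ) = 1 := by
      apply Units.ext
      ext i j
      simp [sc]
    rw [h2, one_mul]
  · rw [sc_mul, det_smul', Units.val_mk0, hηn]
    exact div_mul_cancel₀ _ hdB

/-- the image under an automorphism of the field -/
def mp (n : ℕ) (τ : K ≃+* K) : GL (Fin n) K →* GL (Fin n) K :=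
  Matrix.GeneralLinearGroup.map (τ : K →+* K)

theorem mp_apply (τ : K ≃+* K) (A : GL (Fin n) K) :
    (mp n τ A : Matrix (Fin n) (Fin n) K) = (A : Matrix (Fin n) (Fin n) K).map τ := rfl

theorem trace_mp (τ : K ≃+* K) (A : GL (Fin n) K) :
    (mp n τ A : Matrix (Fin n) (Fin n) K).trace = τ (A : Matrix (Fin n) (Fin n) K).trace := by
  rw [mp_apply]
  exact (AddMonoidHom.map_trace (τ : K →+ K) (A : Matrix (Fin n) (Fin n) K)).symm

theorem det_mp (τ : K ≃+* K) (A : GL (Fin n) K) :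
    (mp n τ A : Matrix (Fin n) (Fin n) K).det = τ (A : Matrix (Fin n) (Fin n) K).det := by
  rw [mp_apply]
  exact (RingHom.map_det (τ : K →+* K) (A : Matrix (Fin n) (Fin n) K)).symm

theorem charpoly_mp (τ : K ≃+* K) (A : GL (Fin n) K) :
    (mp n τ A : Matrix (Fin n) (Fin n) K).charpoly =
      (A : Matrix (Fin n) (Fin n) K).charpoly.map (τ : K →+* K) := by
  rw [mp_apply, ← Matrix.charpoly_map]
  rfl

/-- a subgroup which contains a normal subgroup of prime index properly is everything -/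
theorem eq_top_of_prime {N M : Subgroup G} {p : ℕ} (hp : p.Prime) (hidx : N.index = p)
    (hNM : N ≤ M) {g : G} (hg : g ∉ N) (hgM : g ∈ M) : M = ⊤ := by
  have h1 := Subgroup.relIndex_mul_index hNM
  rw [hidx] at h1
  have h2 : M.index ∣ p := ⟨N.relIndex M, by rw [mul_comm]; exact h1.symm⟩
  rcases (Nat.dvd_prime hp).mp h2 with h3 | h3
  · exact Subgroup.index_eq_one.mp h3
  · exfalso
    rw [h3] at h1
    have h4 : N.relIndex M = 1 := by
      have := hp.pos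
      exact Nat.eq_of_mul_eq_mul_right this (by rw [h1, one_mul])
    exact hg (Subgroup.relIndex_eq_one.mp h4 hgM)

/-- **The canonical extension.** -/
theorem step [IsAlgClosed K] (hn : 0 < n) {N : Subgroup G} [hNn : N.Normal]
    {σ : N →* GL (Fin n) K} (hσ : Spans σ) {τ : K ≃+* K} {p : ℕ} (hp : Good τ n p)
    (hidx : N.index = p) {g : G} (hg : g ∉ N)
    (ht : ∀ (x : G) (hx : x ∈ N), (σ ⟨g * x * g⁻¹, hNn.conj_mem x hx g⟩ :
      Matrix (Fin n) (Fin n) K).trace = (σ ⟨x, hx⟩ : Matrix (Fin n) (Fin n) K).trace)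
    (hτ : ∀ x : N, τ (σ x : Matrix (Fin n) (Fin n) K).trace =
      (σ x : Matrix (Fin n) (Fin n) K).trace)
    (hgp : g ^ p ∈ N) {d : K} (hd : (σ ⟨g ^ p, hgp⟩ : Matrix (Fin n) (Fin n) K).det = d ^ p)
    (hdτ : τ d = d) :
    ∃ R : G →* GL (Fin n) K, (∀ (x : G) (hx : x ∈ N), R x = σ ⟨x, hx⟩) ∧
      (∀ x, (R x : Matrix (Fin n) (Fin n) K).charpoly.map (τ : K →+* K) =
        (R x : Matrix (Fin n) (Fin n) K).charpoly) ∧
      ((∀ x, mp n τ (σ x) = σ x) → ∀ x, mp n τ (R x) = R x) := by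
  have hne : Nonempty (Fin n) := ⟨⟨0, hn⟩⟩
  obtain ⟨B, hB, hBp, hBd⟩ := exists_normal hn hσ hp ht hgp hd
  obtain ⟨R, hR, hRg⟩ := ext_cyclic hp.1 hidx hg B hB hgp hBp
  obtain ⟨P, hP⟩ := conj_of_trace σ ((mp n τ).comp σ) hσ (fun x => by
    rw [MonoidHom.comp_apply, trace_mp, hτ])
  have hP' : ∀ x, mp n τ (σ x) = P * σ x * P⁻¹ := hP
  have hC : ((g, P⁻¹ * mp n τ B * P) : G × GL (Fin n) K) ∈ Hat σ := by
    intro y hy
    have h1 := hB y hy
    change σ ⟨g * y * g⁻¹, _⟩ = B * σ ⟨y, hy⟩ * B⁻¹ at h1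
    have h2 := congrArg (mp n τ) h1
    rw [map_mul, map_mul, map_inv, hP', hP'] at h2
    change σ ⟨g * y * g⁻¹, _⟩ = (P⁻¹ * mp n τ B * P) * σ ⟨y, hy⟩ * (P⁻¹ * mp n τ B * P)⁻¹
    calc σ ⟨g * y * g⁻¹, _⟩ = P⁻¹ * (P * σ ⟨g * y * g⁻¹, hNn.conj_mem y hy g⟩ * P⁻¹) * P := by group
      _ = P⁻¹ * (mp n τ B * (P * σ ⟨y, hy⟩ * P⁻¹) * (mp n τ B)⁻¹) * P := by rw [h2]
      _ = _ := by group
  obtain ⟨μ, hμ⟩ := hat_unique hσ hC hB
  have hCp : (P⁻¹ * mp n τ B * P) ^ p = B ^ p := by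
    have h1 : (P⁻¹ * mp n τ B * P) ^ p = P⁻¹ * mp n τ (B ^ p) * P := by
      have h2 := conj_pow (a := P⁻¹) (b := mp n τ B) (i := p)
      rw [inv_inv] at h2
      rw [h2, map_pow]
    rw [h1, hBp, hP']
    group
  have hμp : μ ^ p = 1 := by
    have h1 := congrArg (fun X : GL (Fin n) K => (X : Matrix (Fin n) (Fin n) K)) hCp
    simp only [Units.val_pow_eq_pow_val] at h1
    rw [hμ, _root_.smul_pow, ← Units.val_pow_eq_pow_val] at h1
    by_contra hcon
    have h2 : (μ ^ p - 1) • ((B ^ p : GL (Fin n) K) : Matrix (Fin n) (Fin n) K) = 0 := by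
      rw [sub_smul, one_smul, h1, sub_self]
    rcases smul_eq_zero.mp h2 with h3 | h3
    · exact hcon (sub_eq_zero.mp h3)
    · exact (B ^ p).ne_zero h3
  have hd0 : d ≠ 0 := by
    rw [← hBd]
    exact ((Matrix.isUnit_iff_isUnit_det _).mp B.isUnit).ne_zero
  have hμn : μ ^ n = 1 := by
    have h1 : ((P⁻¹ * mp n τ B * P : GL (Fin n) K) : Matrix (Fin n) (Fin n) K).det = d := by
      rw [Units.val_mul, Units.val_mul, Matrix.det_mul, Matrix.det_mul, mul_right_comm,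
        ← Matrix.det_mul, ← Units.val_mul, inv_mul_cancel, Units.val_one, Matrix.det_one, one_mul,
        det_mp, hBd, hdτ]
    rw [hμ, det_smul', hBd] at h1
    exact mul_right_cancel₀ hd0 (by rw [h1, one_mul])
  have hμ1 : μ = 1 := hp.one_of_pow hn hμp hμn
  have hBτ : mp n τ B = P * B * P⁻¹ := by
    have h1 : P⁻¹ * mp n τ B * P = B := Units.ext (by rw [hμ, hμ1, one_smul])
    calc mp n τ B = P * (P⁻¹ * mp n τ B * P) * P⁻¹ := by group
      _ = P * B * P⁻¹ := by rw [h1]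
  have hall : ∀ x, mp n τ (R x) = P * R x * P⁻¹ := by
    let M : Subgroup G := ((mp n τ).comp R).eqLocus ((MulAut.conj P).toMonoidHom.comp R)
    have hM : M = ⊤ := by
      refine eq_top_of_prime hp.1 hidx (fun x hx => ?_) hg ?_
      · change mp n τ (R x) = P * R x * P⁻¹
        rw [hR x hx, hP']
      · change mp n τ (R g) = P * R g * P⁻¹
        rw [hRg, hBτ]
    intro x
    have hx : x ∈ M := by rw [hM]; exact Subgroup.mem_top x
    exact hx
  refine ⟨R, hR, fun x => ?_, fun hfix x => ?_⟩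
  · rw [← charpoly_mp, hall, charpoly_conj]
  · rw [hall]
    obtain ⟨c, hc⟩ := scalar_of_comm hσ (P : Matrix (Fin n) (Fin n) K) (fun y => by
      have h1 := hP' y
      rw [hfix, eq_mul_inv_iff_mul_eq] at h1
      rw [← Units.val_mul, ← Units.val_mul, h1])
    have h2 : P * R x = R x * P := by
      apply Units.ext
      rw [Units.val_mul, Units.val_mul, hc]
      ext i j
      simp [mul_comm]
    rw [h2, mul_inv_cancel_right]

end Run7.h427.CY
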